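import Pool.Agent.H282R4.PU.Par

namespace H282R4.PU

open MeasureTheory
open H282R3.SQ (USq)

theorem choose_A {d : ℕ} (hd : 100 ≤ d) {x : ℝ} (hx : 20 * (d : ℝ) ^ 4 ≤ x) :
    ∃ N M : ℕ, 4 * (d : ℝ) ^ 4 ≤ x - N ∧ x - N ≤ 9 * (d : ℝ) ^ 4 ∧
      (M : ℝ) + t d ≤ (x - N) * s d ∧ (x - N) * s d ≤ M + t d + 1 / (d : ℝ) ^ 2 := by
  obtain ⟨ht0, ht1, ht2⟩ := t_bounds hd
  obtain ⟨hs0, hs1, -, hs3⟩ := s_bounds hd
  have hd' : (100 : ℝ) ≤ d := by exact_mod_cast hd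
  have hd0 : (0 : ℝ) < d := by linarith
  have hdd : (10000 : ℝ) ≤ (d : ℝ) ^ 2 := by nlinarith
  have hd4 : (10000 : ℝ) * (d : ℝ) ^ 2 ≤ (d : ℝ) ^ 4 := by nlinarith
  have htl : t d ≤ 1 := by
    refine ht1.trans ?_
    rw [div_le_one (by positivity)]
    linarith
  -- the integer part
  obtain ⟨T, hT⟩ : ∃ T : ℕ, T = ⌊x - 4 * (d : ℝ) ^ 4⌋₊ := ⟨_, rfl⟩
  have hx0 : 0 ≤ x - 4 * (d : ℝ) ^ 4 := by nlinarith
  have hT1 : (T : ℝ) ≤ x - 4 * (d : ℝ) ^ 4 := by rw [hT]; exact Nat.floor_le hx0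
  have hT2 : x - 4 * (d : ℝ) ^ 4 < T + 1 := by rw [hT]; exact Nat.lt_floor_add_one _
  obtain ⟨e, he⟩ : ∃ e : ℝ, e = s d - 1 := ⟨_, rfl⟩
  have he0 : 0 < e := by rw [he]; linarith
  have he1 : t d ^ 2 / 4 ≤ e := by rw [he]; linarith
  have he2 : e ≤ t d ^ 2 / 2 := by rw [he]; linarith
  obtain ⟨b, hb⟩ : ∃ b : ℝ, b = (x - T) * s d - t d := ⟨_, rfl⟩
  have hb0 : 0 ≤ b := by
    rw [hb]
    have : 1 ≤ x - T := by nlinarith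
    nlinarith
  obtain ⟨m0, hm0⟩ : ∃ m0 : ℕ, m0 = ⌊b⌋₊ := ⟨_, rfl⟩
  have hm1 : (m0 : ℝ) ≤ b := by rw [hm0]; exact Nat.floor_le hb0
  have hm2 : b < m0 + 1 := by rw [hm0]; exact Nat.lt_floor_add_one _
  obtain ⟨j, hj⟩ : ∃ j : ℕ, j = ⌈(1 - (b - m0)) / e⌉₊ := ⟨_, rfl⟩
  have hf0 : 0 ≤ (1 - (b - m0)) / e := div_nonneg (by linarith) he0.le
  have hj1 : (1 - (b - m0)) / e ≤ j := by rw [hj]; exact Nat.le_ceil _
  have hj2 : (j : ℝ) < (1 - (b - m0)) / e + 1 := by rw [hj]; exact Nat.ceil_lt_add_one hf0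
  have hj3 : 1 - (b - m0) ≤ j * e := by rwa [div_le_iff₀ he0] at hj1
  have hj4 : (j : ℝ) * e < 1 - (b - m0) + e := by
    have := mul_lt_mul_of_pos_right hj2 he0
    rwa [add_mul, div_mul_cancel₀ _ he0.ne', one_mul] at this
  -- upper bound for `j`
  have hj5 : (j : ℝ) ≤ 4 * ((d : ℝ) ^ 2 + 2) ^ 2 + 1 := by
    have h1 : (j : ℝ) * e < 1 + e := by linarith
    by_contra hcon
    push Not at hcon
    have h2 : (4 * ((d : ℝ) ^ 2 + 2) ^ 2 + 1) * e < j * e := mul_lt_mul_of_pos_right hcon he0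
    have h3 : 1 ≤ 4 * ((d : ℝ) ^ 2 + 2) ^ 2 * e := by
      have h4 : 4 * ((d : ℝ) ^ 2 + 2) ^ 2 * (t d ^ 2 / 4) = (t d * ((d : ℝ) ^ 2 + 2)) ^ 2 := by
        ring
      rw [ht2, one_pow] at h4
      have h5 : 4 * ((d : ℝ) ^ 2 + 2) ^ 2 * (t d ^ 2 / 4) ≤ 4 * ((d : ℝ) ^ 2 + 2) ^ 2 * e :=
        mul_le_mul_of_nonneg_left he1 (by positivity)
      linarith
    linarith
  have hexp : 4 * ((d : ℝ) ^ 2 + 2) ^ 2 + 1 = 4 * (d : ℝ) ^ 4 + 16 * (d : ℝ) ^ 2 + 17 := by ring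
  rw [hexp] at hj5
  have hjT : j ≤ T := by
    have : (j : ℝ) ≤ T := by linarith
    exact_mod_cast this
  refine ⟨T - j, m0 + j + 1, ?_, ?_, ?_, ?_⟩
  · rw [Nat.cast_sub hjT]
    have : (0 : ℝ) ≤ j := Nat.cast_nonneg j
    linarith
  · rw [Nat.cast_sub hjT]
    linarith
  · rw [Nat.cast_sub hjT]
    push_cast
    have h1 : (x - ((T : ℝ) - j)) * s d = b + t d + j + j * e := by
      rw [hb, he]
      ring
    rw [h1]
    linarith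
  · rw [Nat.cast_sub hjT]
    push_cast
    have h1 : (x - ((T : ℝ) - j)) * s d = b + t d + j + j * e := by
      rw [hb, he]
      ring
    rw [h1]
    have h2 : e ≤ 1 / (d : ℝ) ^ 2 := by
      have h3 : t d ^ 2 / 2 ≤ t d := by nlinarith
      linarith
    linarith

end H282R4.PU
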