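import Pool.Agent.H282R4.PU.Defs

namespace H282R4.PU

open MeasureTheory
open H282R3.SQ (USq)

theorem par_d {d : ℕ} (hd : 100 ≤ d) : (100 : ℝ) ≤ d := by exact_mod_cast hd

theorem par_sqrt_le {x : ℝ} (hx : 0 ≤ x) : Real.sqrt (1 + x) ≤ 1 + x / 2 := by
  rw [Real.sqrt_le_left (by linarith)]
  nlinarith

theorem par_le_sqrt {x : ℝ} (hx : 0 ≤ x) (hx1 : x ≤ 8) : 1 + x / 2 - x ^ 2 / 8 ≤ Real.sqrt (1 + x) := by
  by_cases h : 1 + x / 2 - x ^ 2 / 8 ≤ 0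
  · exact h.trans (Real.sqrt_nonneg _)
  · apply Real.le_sqrt_of_sq_le
    have h1 : (1 + x / 2 - x ^ 2 / 8) ^ 2 = 1 + x - x ^ 3 * (8 - x) / 64 := by ring
    rw [h1]
    have : 0 ≤ x ^ 3 * (8 - x) := mul_nonneg (by positivity) (by linarith)
    linarith

theorem t_bounds {d : ℕ} (hd : 100 ≤ d) : 0 < t d ∧ t d ≤ 1 / (d : ℝ) ^ 2 ∧
    t d * ((d : ℝ) ^ 2 + 2) = 1 := by
  have hd' := par_d hd
  have h0 : (0 : ℝ) < (d : ℝ) ^ 2 := by positivity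
  refine ⟨?_, ?_, ?_⟩
  · unfold t; positivity
  · unfold t
    exact one_div_le_one_div_of_le h0 (by linarith)
  · unfold t
    exact one_div_mul_cancel (by positivity)

theorem par_t_le {d : ℕ} (hd : 100 ≤ d) : t d ≤ 1 / (100 * (d : ℝ)) ∧ t d ≤ 1 / 10000 := by
  have hd' := par_d hd
  obtain ⟨h1, h2, -⟩ := t_bounds hd
  constructor
  · refine h2.trans (one_div_le_one_div_of_le (by positivity) ?_)
    nlinarith
  · refine h2.trans (one_div_le_one_div_of_le (by positivity) ?_)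
    nlinarith

theorem s_bounds {d : ℕ} (hd : 100 ≤ d) : 1 < s d ∧ s d ≤ 1 + t d ^ 2 / 2 ∧ s d ^ 2 = 1 + t d ^ 2 ∧
    1 + t d ^ 2 / 4 ≤ s d := by
  obtain ⟨h1, h2, -⟩ := t_bounds hd
  have h3 := (par_t_le hd).2
  have h4 : 0 < t d ^ 2 := by positivity
  have h5 : t d ^ 2 ≤ 1 := by nlinarith
  have h6 := par_le_sqrt h4.le (by linarith)
  have h7 : 1 + t d ^ 2 / 4 ≤ s d := by
    unfold s
    nlinarith
  refine ⟨by linarith, par_sqrt_le h4.le, ?_, h7⟩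
  exact Real.sq_sqrt (by positivity)

theorem par_tau {d : ℕ} (hd : 100 ≤ d) : ∀ q : ℕ, q ≤ d →
    1 / (d : ℝ) - q / (4 * (d : ℝ) ^ 2) ≤ tau d q ∧ tau d q ≤ 1 / d := by
  have hd' := par_d hd
  have hd0 : (0 : ℝ) < d := by linarith
  intro q
  induction q with
  | zero =>
    intro _
    simp [tau]
  | succ q ih =>
    intro hq
    obtain ⟨h1, h2⟩ := ih (by omega)
    have hq' : (q : ℝ) ≤ d := by exact_mod_cast (by omega : q ≤ d)
    have h0 : 0 ≤ tau d q := by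
      refine le_trans ?_ h1
      rw [sub_nonneg, div_le_div_iff₀ (by positivity) hd0]
      nlinarith
    have h3 : (d : ℝ) ^ 2 / 4 * tau d q ^ 4 ≤ 1 / (4 * (d : ℝ) ^ 2) := by
      have h4 : tau d q ^ 4 ≤ (1 / (d : ℝ)) ^ 4 := pow_le_pow_left₀ h0 h2 4
      calc (d : ℝ) ^ 2 / 4 * tau d q ^ 4 ≤ (d : ℝ) ^ 2 / 4 * (1 / (d : ℝ)) ^ 4 :=
            mul_le_mul_of_nonneg_left h4 (by positivity)
        _ = 1 / (4 * (d : ℝ) ^ 2) := by field_simp
    have h4 : 0 ≤ (d : ℝ) ^ 2 / 4 * tau d q ^ 4 := by positivity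
    have h5 : tau d (q + 1) = tau d q - (d : ℝ) ^ 2 / 4 * tau d q ^ 4 := rfl
    have h6 : ((q + 1 : ℕ) : ℝ) / (4 * (d : ℝ) ^ 2) =
        q / (4 * (d : ℝ) ^ 2) + 1 / (4 * (d : ℝ) ^ 2) := by
      push_cast
      rw [add_div]
    rw [h5, h6]
    constructor <;> linarith

theorem tau_bounds {d : ℕ} (hd : 100 ≤ d) {q : ℕ} (hq : q ≤ d) :
    3 / (4 * (d : ℝ)) ≤ tau d q ∧ tau d q ≤ 1 / d := by
  have hd' := par_d hd
  have hd0 : (0 : ℝ) < d := by linarith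
  obtain ⟨h1, h2⟩ := par_tau hd q hq
  refine ⟨le_trans ?_ h1, h2⟩
  have hq' : (q : ℝ) ≤ d := by exact_mod_cast hq
  have h3 : (q : ℝ) / (4 * (d : ℝ) ^ 2) ≤ d / (4 * (d : ℝ) ^ 2) :=
    div_le_div_of_nonneg_right hq' (by positivity)
  have h4 : 3 / (4 * (d : ℝ)) = 1 / d - d / (4 * (d : ℝ) ^ 2) := by
    field_simp
    ring
  rw [h4]
  linarith

theorem tau_anti {d : ℕ} (hd : 100 ≤ d) {q q' : ℕ} (h : q ≤ q') (hq : q' ≤ d) :
    tau d q' ≤ tau d q ∧ tau d q ≤ tau d q' + (q' - q) / (4 * (d : ℝ) ^ 2) := by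
  have hd' := par_d hd
  have hd0 : (0 : ℝ) < d := by linarith
  induction q', h using Nat.le_induction with
  | base => simp
  | succ k hk ih =>
    obtain ⟨h1, h2⟩ := ih (by omega)
    obtain ⟨h3, h4⟩ := tau_bounds hd (show k ≤ d by omega)
    have h0 : 0 ≤ tau d k := le_trans (by positivity) h3
    have h5 : (d : ℝ) ^ 2 / 4 * tau d k ^ 4 ≤ 1 / (4 * (d : ℝ) ^ 2) := by
      have h4 : tau d k ^ 4 ≤ (1 / (d : ℝ)) ^ 4 := pow_le_pow_left₀ h0 h4 4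
      calc (d : ℝ) ^ 2 / 4 * tau d k ^ 4 ≤ (d : ℝ) ^ 2 / 4 * (1 / (d : ℝ)) ^ 4 :=
            mul_le_mul_of_nonneg_left h4 (by positivity)
        _ = 1 / (4 * (d : ℝ) ^ 2) := by field_simp
    have h6 : 0 ≤ (d : ℝ) ^ 2 / 4 * tau d k ^ 4 := by positivity
    have h7 : tau d (k + 1) = tau d k - (d : ℝ) ^ 2 / 4 * tau d k ^ 4 := rfl
    have h8 : (((k + 1 : ℕ) : ℝ) - q) / (4 * (d : ℝ) ^ 2) =
        (k - q) / (4 * (d : ℝ) ^ 2) + 1 / (4 * (d : ℝ) ^ 2) := by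
      push_cast
      rw [← add_div]
      congr 1
      ring
    rw [h7, h8]
    constructor <;> linarith

theorem par_tau_pos {d : ℕ} (hd : 100 ≤ d) {q : ℕ} (hq : q ≤ d) : 0 < tau d q ∧ tau d q ≤ 1 / 100 := by
  have hd' := par_d hd
  have hd0 : (0 : ℝ) < d := by linarith
  obtain ⟨h1, h2⟩ := tau_bounds hd hq
  exact ⟨lt_of_lt_of_le (by positivity) h1, h2.trans (one_div_le_one_div_of_le (by norm_num) hd')⟩

theorem kap_bounds {d : ℕ} (hd : 100 ≤ d) {q : ℕ} (hq : q ≤ d) :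
    1 < kap d q ∧ kap d q ≤ 1 + 1 / (2 * (d : ℝ) ^ 2) ∧ kap d q ^ 2 = 1 + tau d q ^ 2 := by
  have hd' := par_d hd
  have hd0 : (0 : ℝ) < d := by linarith
  obtain ⟨h0, h00⟩ := par_tau_pos hd hq
  obtain ⟨h1, h2⟩ := tau_bounds hd hq
  have h3 : 0 < tau d q ^ 2 := by positivity
  refine ⟨?_, ?_, ?_⟩
  · unfold kap
    rw [Real.lt_sqrt (by norm_num)]
    linarith
  · have h4 : kap d q ≤ 1 + tau d q ^ 2 / 2 := par_sqrt_le h3.le
    have h5 : tau d q ^ 2 ≤ (1 / (d : ℝ)) ^ 2 := pow_le_pow_left₀ h0.le h2 2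
    have h6 : 1 / (2 * (d : ℝ) ^ 2) = (1 / (d : ℝ)) ^ 2 / 2 := by field_simp
    rw [h6]
    linarith
  · exact Real.sq_sqrt (by positivity)

theorem phi_bounds {d : ℕ} (hd : 100 ≤ d) {q : ℕ} (hq : q ≤ d) :
    7 / (10 * (d : ℝ)) ≤ phi d q ∧ phi d q ≤ tau d q := by
  have hd' := par_d hd
  have hd0 : (0 : ℝ) < d := by linarith
  obtain ⟨h0, h00⟩ := par_tau_pos hd hq
  obtain ⟨h1, h2⟩ := tau_bounds hd hq
  obtain ⟨ht, -, -⟩ := t_bounds hd
  obtain ⟨ht1, ht2⟩ := par_t_le hd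
  have hD : 0 < 1 + t d * tau d q := by positivity
  constructor
  · unfold phi
    rw [le_div_iff₀ hD]
    have h3 : t d * tau d q ≤ 1 / 100 := by nlinarith
    have h4 : 7 / (10 * (d : ℝ)) * (1 + t d * tau d q) ≤ 7 / (10 * (d : ℝ)) * (1 + 1 / 100) :=
      mul_le_mul_of_nonneg_left (by linarith) (by positivity)
    have h5 : 7 / (10 * (d : ℝ)) * (1 + 1 / 100) ≤ 3 / (4 * (d : ℝ)) - 1 / (100 * (d : ℝ)) := by
      have e1 : 7 / (10 * (d : ℝ)) * (1 + 1 / 100) = (707 / 1000) * (1 / d) := by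
        field_simp
        ring
      have e2 : 3 / (4 * (d : ℝ)) - 1 / (100 * (d : ℝ)) = (74 / 100) * (1 / d) := by
        field_simp
        ring
      rw [e1, e2]
      exact mul_le_mul_of_nonneg_right (by norm_num) (by positivity)
    linarith
  · unfold phi
    rw [div_le_iff₀ hD]
    have : 0 ≤ tau d q * (t d * tau d q) := by positivity
    linarith

theorem phi_anti {d : ℕ} (hd : 100 ≤ d) {q q' : ℕ} (h : q ≤ q') (hq : q' ≤ d) :
    phi d q' ≤ phi d q := by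
  obtain ⟨h0, -⟩ := par_tau_pos hd hq
  obtain ⟨h1, -⟩ := par_tau_pos hd (h.trans hq)
  obtain ⟨ht, -, -⟩ := t_bounds hd
  obtain ⟨h2, -⟩ := tau_anti hd h hq
  unfold phi
  rw [div_le_div_iff₀ (by positivity) (by positivity)]
  have h3 : 0 ≤ (tau d q - tau d q') * (1 + t d ^ 2) := mul_nonneg (by linarith) (by positivity)
  nlinarith

theorem eps_eq {d : ℕ} (hd : 100 ≤ d) {q : ℕ} (hq : q ≤ d) :
    eps d q = Real.sqrt (1 + phi d q ^ 2) - 1 := by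
  obtain ⟨h0, -⟩ := par_tau_pos hd hq
  obtain ⟨ht, -, -⟩ := t_bounds hd
  have hD : 0 < 1 + t d * tau d q := by positivity
  unfold eps kap s
  rw [← Real.sqrt_mul (by positivity)]
  congr 1
  rw [div_eq_iff hD.ne']
  rw [← Real.sqrt_sq hD.le, ← Real.sqrt_mul (by positivity)]
  congr 1
  unfold phi
  field_simp
  ring

theorem eps_bounds {d : ℕ} (hd : 100 ≤ d) {q : ℕ} (hq : q ≤ d) :
    phi d q ^ 2 / 2 - phi d q ^ 4 / 8 ≤ eps d q ∧ eps d q ≤ phi d q ^ 2 / 2 ∧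
    1 / (5 * (d : ℝ) ^ 2) ≤ eps d q ∧ eps d q ≤ 1 / (2 * (d : ℝ) ^ 2) := by
  have hd' := par_d hd
  have hd0 : (0 : ℝ) < d := by linarith
  obtain ⟨h1, h2⟩ := phi_bounds hd hq
  obtain ⟨h3, h4⟩ := par_tau_pos hd hq
  have hphi0 : 0 < phi d q := lt_of_lt_of_le (by positivity) h1
  have hphi1 : phi d q ≤ 1 / 100 := h2.trans h4
  have hsq : phi d q ^ 2 ≤ 1 / 10000 := by
    have := pow_le_pow_left₀ hphi0.le hphi1 2
    norm_num at this
    linarith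
  have a1 : phi d q ^ 2 / 2 - phi d q ^ 4 / 8 ≤ eps d q := by
    rw [eps_eq hd hq]
    have := par_le_sqrt (x := phi d q ^ 2) (by positivity) (by linarith)
    have e : (phi d q ^ 2) ^ 2 = phi d q ^ 4 := by ring
    rw [e] at this
    linarith
  have a2 : eps d q ≤ phi d q ^ 2 / 2 := by
    rw [eps_eq hd hq]
    have := par_sqrt_le (x := phi d q ^ 2) (by positivity)
    linarith
  refine ⟨a1, a2, ?_, ?_⟩
  · refine le_trans ?_ a1
    have e1 : (7 / (10 * (d : ℝ))) ^ 2 ≤ phi d q ^ 2 := pow_le_pow_left₀ (by positivity) h1 2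
    have e2 : (7 / (10 * (d : ℝ))) ^ 2 = (49 / 100) * (1 / (d : ℝ) ^ 2) := by
      field_simp
      norm_num
    have e3 : 1 / (5 * (d : ℝ) ^ 2) = (1 / 5) * (1 / (d : ℝ) ^ 2) := by
      field_simp
    have e4 : phi d q ^ 4 = phi d q ^ 2 * phi d q ^ 2 := by ring
    have e5 : phi d q ^ 2 * phi d q ^ 2 ≤ phi d q ^ 2 * (1 / 10000) :=
      mul_le_mul_of_nonneg_left hsq (by positivity)
    have e6 : 0 < 1 / (d : ℝ) ^ 2 := by positivity
    rw [e3, e4]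
    rw [e2] at e1
    linarith
  · refine a2.trans ?_
    have e1 : phi d q ^ 2 ≤ (1 / (d : ℝ)) ^ 2 :=
      pow_le_pow_left₀ hphi0.le (h2.trans (tau_bounds hd hq).2) 2
    have e2 : 1 / (2 * (d : ℝ) ^ 2) = (1 / (d : ℝ)) ^ 2 / 2 := by field_simp
    rw [e2]
    linarith

theorem eps_anti {d : ℕ} (hd : 100 ≤ d) {q q' : ℕ} (h : q ≤ q') (hq : q' ≤ d) :
    eps d q' ≤ eps d q := by
  have hd' := par_d hd
  have hd0 : (0 : ℝ) < d := by linarith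
  rw [eps_eq hd hq, eps_eq hd (h.trans hq)]
  have h1 := phi_anti hd h hq
  have h2 := (phi_bounds hd hq).1
  have h0 : 0 ≤ phi d q' := le_trans (by positivity) h2
  have h3 : phi d q' ^ 2 ≤ phi d q ^ 2 := pow_le_pow_left₀ h0 h1 2
  have h4 : Real.sqrt (1 + phi d q' ^ 2) ≤ Real.sqrt (1 + phi d q ^ 2) :=
    Real.sqrt_le_sqrt (by linarith)
  linarith

end H282R4.PU
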