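import Pool.Agent.H282R4.PU.Defs
import Pool.Agent.H282R4.PU.Par

namespace H282R4.PU

open MeasureTheory
open H282R3.SQ (USq)

theorem Par2_D {d : ℕ} (hd : 100 ≤ d) : (100 : ℝ) ≤ d := by exact_mod_cast hd

theorem Par2_eps_pos {d : ℕ} (hd : 100 ≤ d) {q : ℕ} (hq : q ≤ d) : 0 < eps d q := by
  have hD := Par2_D hd
  have h := (eps_bounds hd hq).2.2.1
  have h2 : (0 : ℝ) < 1 / (5 * (d : ℝ) ^ 2) := by positivity
  linarith

theorem Par2_aa_nonneg {d : ℕ} (hd : 100 ≤ d) (i : ℕ) : 0 ≤ aa d i := by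
  have hD := Par2_D hd
  have ht := (t_bounds hd).1
  unfold aa
  positivity

theorem r_bounds {d : ℕ} (hd : 100 ≤ d) {q i : ℕ} (hq : q ≤ d) :
    aa d i ≤ r d q i * eps d q ∧ r d q i * eps d q ≤ aa d i + eps d q := by
  have he := Par2_eps_pos hd hq
  have ha := Par2_aa_nonneg hd i
  constructor
  · have h1 : aa d i / eps d q ≤ (r d q i : ℝ) := Nat.le_ceil _
    rwa [div_le_iff₀ he] at h1
  · have h2 : (r d q i : ℝ) < aa d i / eps d q + 1 := Nat.ceil_lt_add_one (by positivity)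
    have h3 : (r d q i : ℝ) * eps d q ≤ (aa d i / eps d q + 1) * eps d q :=
      mul_le_mul_of_nonneg_right h2.le he.le
    have h4 : (aa d i / eps d q + 1) * eps d q = aa d i + eps d q := by
      field_simp
    linarith

theorem Par2_aa_mono {d : ℕ} (hd : 100 ≤ d) {i i' : ℕ} (hi : i ≤ i') : aa d i ≤ aa d i' := by
  have hD := Par2_D hd
  have ht := (t_bounds hd).1
  have hi' : (i : ℝ) ≤ i' := by exact_mod_cast hi
  unfold aa
  gcongr

theorem r_mono {d : ℕ} (hd : 100 ≤ d) {q q' i i' : ℕ} (h : q ≤ q') (hq : q' ≤ d) (hi : i ≤ i') :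
    r d q i ≤ r d q' i' := by
  have he' := Par2_eps_pos hd hq
  have h1 := eps_anti hd h hq
  have h2 := Par2_aa_mono hd hi
  have h3 := Par2_aa_nonneg hd i'
  unfold r
  apply Nat.ceil_mono
  exact div_le_div₀ h3 h2 he' h1

theorem Par2_aa_le {d : ℕ} (hd : 100 ≤ d) {i : ℕ} (hi : i < d) : aa d i ≤ 1 + 1 / d := by
  have hD := Par2_D hd
  obtain ⟨ht, _, ht1⟩ := t_bounds hd
  have hi' : (i : ℝ) + 1 ≤ d := by exact_mod_cast hi
  unfold aa
  have h1 : (1 + 1 / (d : ℝ) ^ 2) * t d * (i + 1) * d ≤ (1 + 1 / (d : ℝ) ^ 2) * t d * d * d := by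
    gcongr
  have h2 : (1 + 1 / (d : ℝ) ^ 2) * t d * d * d = t d * ((d : ℝ) ^ 2 + 1) := by
    field_simp
  have h3 : t d * ((d : ℝ) ^ 2 + 1) ≤ 1 := by
    rw [← ht1]
    nlinarith
  linarith

theorem r_le {d : ℕ} (hd : 100 ≤ d) {q i : ℕ} (hq : q ≤ d) (hi : i < d) :
    r d q i ≤ 5 * d ^ 2 + 6 * d := by
  have hD := Par2_D hd
  have he := Par2_eps_pos hd hq
  have h1 := Par2_aa_le hd hi
  have h2 := (eps_bounds hd hq).2.2.1
  unfold r
  apply Nat.ceil_le.2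
  rw [div_le_iff₀ he]
  push_cast
  have h3 : (5 * (d : ℝ) ^ 2 + 6 * d) * (1 / (5 * (d : ℝ) ^ 2)) ≤
      (5 * (d : ℝ) ^ 2 + 6 * d) * eps d q := mul_le_mul_of_nonneg_left h2 (by positivity)
  have h4 : (5 * (d : ℝ) ^ 2 + 6 * d) * (1 / (5 * (d : ℝ) ^ 2)) = 1 + 6 / 5 * (1 / d) := by
    field_simp
  have h5 : 0 < 1 / (d : ℝ) := by positivity
  linarith

theorem top_bounds {d : ℕ} (hd : 100 ≤ d) {q : ℕ} (hq : q ≤ d) :
    d + 3 ≤ top d q ∧ top d q ≤ 6 * d ^ 2 := by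
  have hD := Par2_D hd
  have he := Par2_eps_pos hd hq
  constructor
  · have h1 : (d : ℝ) ^ 2 ≤ r d q (d - 1) := by
      refine le_trans ?_ (Nat.le_ceil _)
      rw [le_div_iff₀ he]
      have h2 := (eps_bounds hd hq).2.2.2
      have h3 : (d : ℝ) ^ 2 * eps d q ≤ (d : ℝ) ^ 2 * (1 / (2 * (d : ℝ) ^ 2)) :=
        mul_le_mul_of_nonneg_left h2 (by positivity)
      have h4 : (d : ℝ) ^ 2 * (1 / (2 * (d : ℝ) ^ 2)) = 1 / 2 := by
        field_simp
      obtain ⟨ht, ht2, ht1⟩ := t_bounds hd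
      have h5 : ((d - 1 : ℕ) : ℝ) + 1 = d := by
        rw [Nat.cast_sub (by omega)]
        push_cast
        ring
      have h6 : aa d (d - 1) = 1 / d + t d * ((d : ℝ) ^ 2 + 1) := by
        unfold aa
        rw [h5]
        field_simp
      have h7 : 0 < 1 / (d : ℝ) := by positivity
      have h8 : t d ≤ 1 / 2 := by
        refine ht2.trans ?_
        rw [div_le_div_iff₀ (by positivity) (by norm_num)]
        nlinarith
      rw [h6]
      nlinarith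
    have h9 : d ^ 2 ≤ r d q (d - 1) := by exact_mod_cast h1
    have h10 : d + 3 ≤ d ^ 2 := by nlinarith
    unfold top
    omega
  · have h1 := r_le hd hq (i := d - 1) (by omega)
    unfold top
    nlinarith

theorem top_mono {d : ℕ} (hd : 100 ≤ d) {q q' : ℕ} (h : q ≤ q') (hq : q' ≤ d) :
    top d q ≤ top d q' := by
  have h1 := r_mono hd h hq (le_refl (d - 1))
  unfold top
  omega

theorem Par2_step {d : ℕ} (hd : 100 ≤ d) {q : ℕ} (hq : q ≤ d) :
    (d : ℝ) ^ 2 ≤ (d : ℝ) ^ 2 * kap d q + gam d ∧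
    (d : ℝ) ^ 2 * kap d q + gam d ≤ (d : ℝ) ^ 2 + 1 / 2 + 8 / d := by
  have hD := Par2_D hd
  obtain ⟨h1, h2, _⟩ := kap_bounds hd hq
  unfold gam
  have h3 : (0 : ℝ) < 8 / d := by positivity
  have h4 : (d : ℝ) ^ 2 * 1 ≤ (d : ℝ) ^ 2 * kap d q := mul_le_mul_of_nonneg_left h1.le
    (by positivity)
  have h5 : (d : ℝ) ^ 2 * kap d q ≤ (d : ℝ) ^ 2 * (1 + 1 / (2 * (d : ℝ) ^ 2)) :=
    mul_le_mul_of_nonneg_left h2 (by positivity)
  have h6 : (d : ℝ) ^ 2 * (1 + 1 / (2 * (d : ℝ) ^ 2)) = (d : ℝ) ^ 2 + 1 / 2 := by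
    field_simp
  constructor <;> linarith

theorem B_bounds {d : ℕ} (hd : 100 ≤ d) {q : ℕ} (hq : q ≤ d) :
    (q : ℝ) * d ^ 2 ≤ B d q ∧ B d q ≤ q * ((d : ℝ) ^ 2 + 1 / 2 + 8 / d) := by
  induction q with
  | zero => simp [B]
  | succ q ih =>
    obtain ⟨h1, h2⟩ := ih (by omega)
    obtain ⟨h3, h4⟩ := Par2_step hd (q := q) (by omega)
    have h5 : B d (q + 1) = B d q + ((d : ℝ) ^ 2 * kap d q + gam d) := by
      show B d q + (d : ℝ) ^ 2 * kap d q + gam d = _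
      ring
    rw [h5]
    push_cast
    constructor
    · linarith
    · linarith

theorem B_diff {d : ℕ} (hd : 100 ≤ d) {q q' : ℕ} (h : q ≤ q') (hq : q' ≤ d) :
    ((q' : ℝ) - q) * d ^ 2 ≤ B d q' - B d q := by
  induction q', h using Nat.le_induction with
  | base => simp
  | succ q' h ih =>
    have h1 := ih (by omega)
    obtain ⟨h3, h4⟩ := Par2_step hd (q := q') (by omega)
    have h5 : B d (q' + 1) = B d q' + ((d : ℝ) ^ 2 * kap d q' + gam d) := by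
      show B d q' + (d : ℝ) ^ 2 * kap d q' + gam d = _
      ring
    rw [h5]
    push_cast
    linarith

theorem Z_bounds {d : ℕ} (hd : 100 ≤ d) :
    B d d + 3 * (d : ℝ) ^ 2 ≤ Z d ∧ Z d ≤ B d d + 4 * (d : ℝ) ^ 2 ∧ (d : ℝ) ^ 3 ≤ Z d ∧
    Z d ≤ 2 * (d : ℝ) ^ 3 ∧ t d * Z d = ((d : ℝ) + 3) * s d := by
  have hD := Par2_D hd
  obtain ⟨ht, ht2, ht1⟩ := t_bounds hd
  obtain ⟨hs1, hs2, _, _⟩ := s_bounds hd
  obtain ⟨hB1, hB2⟩ := B_bounds hd (le_refl d)
  have hZ : Z d = ((d : ℝ) + 3) * s d * ((d : ℝ) ^ 2 + 2) := by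
    unfold Z
    rw [div_eq_iff ht.ne', mul_assoc, mul_comm ((d : ℝ) ^ 2 + 2), ht1, mul_one]
  have hZ1 : (d : ℝ) ^ 3 + 3 * (d : ℝ) ^ 2 + 2 * d + 6 ≤ Z d := by
    rw [hZ]
    have : ((d : ℝ) + 3) * 1 * ((d : ℝ) ^ 2 + 2) ≤ ((d : ℝ) + 3) * s d * ((d : ℝ) ^ 2 + 2) := by
      gcongr
    nlinarith
  have hZ2 : Z d ≤ (d : ℝ) ^ 3 + 3 * (d : ℝ) ^ 2 + 2 * d + 7 := by
    rw [hZ]
    have h1 : ((d : ℝ) + 3) * s d * ((d : ℝ) ^ 2 + 2) ≤
        ((d : ℝ) + 3) * (1 + t d ^ 2 / 2) * ((d : ℝ) ^ 2 + 2) := by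
      gcongr
    have h2 : ((d : ℝ) + 3) * (1 + t d ^ 2 / 2) * ((d : ℝ) ^ 2 + 2) =
        ((d : ℝ) + 3) * ((d : ℝ) ^ 2 + 2) + ((d : ℝ) + 3) * t d *
          (t d * ((d : ℝ) ^ 2 + 2)) / 2 := by ring
    have h3 : ((d : ℝ) + 3) * t d ≤ 2 := by
      have h4 : ((d : ℝ) + 3) * t d ≤ ((d : ℝ) ^ 2 + 2) * t d := by
        apply mul_le_mul_of_nonneg_right _ ht.le
        nlinarith
      nlinarith
    rw [h2, ht1] at h1
    nlinarith
  have hBu : B d d ≤ (d : ℝ) ^ 3 + d / 2 + 8 := by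
    have : (d : ℝ) * ((d : ℝ) ^ 2 + 1 / 2 + 8 / d) = (d : ℝ) ^ 3 + d / 2 + 8 := by
      field_simp
    linarith
  have hBl : (d : ℝ) ^ 3 ≤ B d d := by
    have : (d : ℝ) * (d : ℝ) ^ 2 = (d : ℝ) ^ 3 := by ring
    linarith
  have hD3 : 100 * (d : ℝ) ^ 2 ≤ (d : ℝ) ^ 3 := by nlinarith [sq_nonneg (d : ℝ)]
  have hD2 : 100 * (d : ℝ) ≤ (d : ℝ) ^ 2 := by nlinarith
  refine ⟨by linarith, by linarith, by nlinarith, by linarith, ?_⟩
  unfold Z
  field_simp

theorem cc_bounds {d : ℕ} (hd : 100 ≤ d) {q : ℕ} (hq : q ≤ d) :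
    0 ≤ cc d q ∧ cc d q ≤ 3 / d := by
  have hD := Par2_D hd
  obtain ⟨ht, ht2, ht1⟩ := t_bounds hd
  obtain ⟨hs1, hs2, _, _⟩ := s_bounds hd
  have hstep : ∀ q, q ≤ d → 0 ≤ cc d (q + 1) - cc d q ∧ cc d (q + 1) - cc d q ≤ 3 * t d := by
    intro q hq
    obtain ⟨h3, h4⟩ := Par2_step hd hq
    have h5 : cc d (q + 1) - cc d q = s d - t d * ((d : ℝ) ^ 2 * kap d q + gam d) := by
      unfold cc
      have h6 : B d (q + 1) = B d q + ((d : ℝ) ^ 2 * kap d q + gam d) := by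
        show B d q + (d : ℝ) ^ 2 * kap d q + gam d = _
        ring
      rw [h6]
      push_cast
      ring
    rw [h5]
    have h7 : 8 / (d : ℝ) ≤ 1 := by
      rw [div_le_one (by linarith)]
      linarith
    have h8 : t d * ((d : ℝ) ^ 2 * kap d q + gam d) ≤ t d * ((d : ℝ) ^ 2 + 2) :=
      mul_le_mul_of_nonneg_left (by linarith) ht.le
    have h9 : t d * (d : ℝ) ^ 2 ≤ t d * ((d : ℝ) ^ 2 * kap d q + gam d) :=
      mul_le_mul_of_nonneg_left h3 ht.le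
    have h10 : t d ≤ 1 := by
      refine ht2.trans ?_
      rw [div_le_one (by positivity)]
      nlinarith
    constructor
    · linarith
    · have h11 : t d ^ 2 / 2 ≤ t d := by nlinarith
      nlinarith
  have hind : ∀ q, q ≤ d → 0 ≤ cc d q ∧ cc d q ≤ q * (3 * t d) := by
    intro q
    induction q with
    | zero =>
      intro _
      simp [cc, B]
    | succ q ih =>
      intro hq
      obtain ⟨h1, h2⟩ := ih (by omega)
      obtain ⟨h3, h4⟩ := hstep q (by omega)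
      push_cast
      constructor <;> linarith
  obtain ⟨h1, h2⟩ := hind q hq
  refine ⟨h1, h2.trans ?_⟩
  have hq' : (q : ℝ) ≤ d := by exact_mod_cast hq
  calc (q : ℝ) * (3 * t d) ≤ d * (3 * (1 / (d : ℝ) ^ 2)) := by
        gcongr
    _ = 3 / d := by field_simp

theorem gg_iff {d : ℕ} (hd : 100 ≤ d) {q : ℕ} (hq : q ≤ d) (ρ i : ℕ) (hi : i < d) :
    i < gg d q ρ ↔ r d q i ≤ ρ := by
  constructor
  · intro h
    by_contra hc
    have h1 : (Finset.range d).filter (fun j => r d q j ≤ ρ) ⊆ Finset.range i := by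
      intro j hj
      rw [Finset.mem_filter, Finset.mem_range] at hj
      rw [Finset.mem_range]
      by_contra hji
      have h2 := r_mono hd (le_refl q) hq (not_lt.1 hji)
      omega
    have h3 := Finset.card_le_card h1
    rw [Finset.card_range] at h3
    unfold gg at h
    omega
  · intro h
    have h1 : Finset.range (i + 1) ⊆ (Finset.range d).filter (fun j => r d q j ≤ ρ) := by
      intro j hj
      rw [Finset.mem_range] at hj
      rw [Finset.mem_filter, Finset.mem_range]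
      have h2 := r_mono hd (le_refl q) hq (Nat.lt_succ_iff.1 hj)
      exact ⟨by omega, h2.trans h⟩
    have h3 := Finset.card_le_card h1
    rw [Finset.card_range] at h3
    unfold gg
    omega

theorem gg_le (d q ρ : ℕ) : gg d q ρ ≤ d := by
  unfold gg
  exact (Finset.card_filter_le _ _).trans (Finset.card_range d).le

end H282R4.PU
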