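import Pool.Agent.H282R4.PU.Defs
import Pool.Agent.H282R4.PU.Par2

namespace H282R4.PU

open MeasureTheory
open H282R3.SQ (USq)

/-- previous end row -/
noncomputable def countT (d : ℕ) : ℕ → ℕ
  | 0 => 0
  | q + 1 => top d q

/-- the weight of a segment -/
noncomputable def countW (d H q R : ℕ) : ℝ :=
  open Classical in if q < d ∧ 1 ≤ q ∧ Active d H (q - 1) R then (40 : ℝ) / d else 3

lemma countW_nonneg (d H q R : ℕ) : 0 ≤ countW d H q R := by
  unfold countW
  split_ifs
  · positivity
  · norm_num

open Classical in
lemma count_point {d H q R : ℕ} (hq : q < d) :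
    (if Active d H q R then countW d H q R else 0) ≤
      (if R < top d q then (40 : ℝ) / d else 0) +
        (if countT d q ≤ R ∧ R < countT d (q + 1) then (3 : ℝ) else 0) := by
  have hp : (0 : ℝ) ≤ 40 / d := by positivity
  have hp1 : (0 : ℝ) ≤ (if R < top d q then (40 : ℝ) / d else 0) := by
    split_ifs
    · exact hp
    · exact le_rfl
  have hp2 : (0 : ℝ) ≤ (if countT d q ≤ R ∧ R < countT d (q + 1) then (3 : ℝ) else 0) := by
    split_ifs <;> norm_num
  by_cases hA : Active d H q R
  · rw [if_pos hA]
    have h1 : q ≤ R ∧ R < top d q := by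
      rcases hA with h | h
      · exact h.2
      · omega
    rw [if_pos h1.2]
    unfold countW
    split_ifs with hc hc' hc'
    · linarith
    · linarith
    · linarith
    · exfalso
      apply hc'
      constructor
      · rcases q with _ | q
        · exact Nat.zero_le _
        · change top d q ≤ R
          by_contra hlt
          push Not at hlt
          apply hc
          refine ⟨hq, by omega, Or.inl ⟨by omega, by omega, ?_⟩⟩
          simpa using hlt
      · exact h1.2
  · rw [if_neg hA]
    linarith

open Classical in
lemma count_row {d H q : ℕ} (hd : 100 ≤ d) (hq : q < d) :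
    ∑ R ∈ Finset.range H, (if Active d H q R then countW d H q R else 0) ≤
      240 * (d : ℝ) + 3 * ((countT d (q + 1) : ℝ) - countT d q) := by
  have hd0 : (0 : ℝ) < d := by
    have : 0 < d := by omega
    exact_mod_cast this
  have htop : (top d q : ℝ) ≤ 6 * (d : ℝ) ^ 2 := by
    exact_mod_cast (top_bounds hd hq.le).2
  have hmono : countT d q ≤ countT d (q + 1) := by
    rcases q with _ | q
    · exact Nat.zero_le _
    · change top d q ≤ top d (q + 1)
      exact top_mono hd (Nat.le_succ q) hq.le
  calc ∑ R ∈ Finset.range H, (if Active d H q R then countW d H q R else 0)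
      ≤ ∑ R ∈ Finset.range H, ((if R < top d q then (40 : ℝ) / d else 0) +
        (if countT d q ≤ R ∧ R < countT d (q + 1) then (3 : ℝ) else 0)) :=
        Finset.sum_le_sum fun R _ => count_point hq
    _ = ((Finset.range H).filter (fun R => R < top d q)).card * ((40 : ℝ) / d) +
        ((Finset.range H).filter (fun R => countT d q ≤ R ∧ R < countT d (q + 1))).card * 3 := by
        rw [Finset.sum_add_distrib, ← Finset.sum_filter, ← Finset.sum_filter, Finset.sum_const,
          Finset.sum_const, nsmul_eq_mul, nsmul_eq_mul]
    _ ≤ (top d q : ℝ) * ((40 : ℝ) / d) + ((countT d (q + 1) : ℝ) - countT d q) * 3 := by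
        have h1 : ((Finset.range H).filter (fun R => R < top d q)).card ≤ top d q := by
          have := Finset.card_le_card (s := (Finset.range H).filter (fun R => R < top d q))
            (t := Finset.range (top d q)) (by
              intro R hR
              rw [Finset.mem_filter] at hR
              exact Finset.mem_range.mpr hR.2)
          simpa using this
        have h2 : ((Finset.range H).filter
            (fun R => countT d q ≤ R ∧ R < countT d (q + 1))).card ≤
            countT d (q + 1) - countT d q := by
          have := Finset.card_le_card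
            (s := (Finset.range H).filter (fun R => countT d q ≤ R ∧ R < countT d (q + 1)))
            (t := Finset.Ico (countT d q) (countT d (q + 1))) (by
              intro R hR
              rw [Finset.mem_filter] at hR
              exact Finset.mem_Ico.mpr hR.2)
          simpa using this
        have h1' : (((Finset.range H).filter (fun R => R < top d q)).card : ℝ) ≤ top d q := by
          exact_mod_cast h1
        have h2' : (((Finset.range H).filter
            (fun R => countT d q ≤ R ∧ R < countT d (q + 1))).card : ℝ) ≤
            (countT d (q + 1) : ℝ) - countT d q := by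
          rw [← Nat.cast_sub hmono]
          exact_mod_cast h2
        have h3 : (0 : ℝ) ≤ 40 / d := by positivity
        nlinarith
    _ ≤ 240 * (d : ℝ) + 3 * ((countT d (q + 1) : ℝ) - countT d q) := by
        have h3 : (top d q : ℝ) * ((40 : ℝ) / d) ≤ 6 * (d : ℝ) ^ 2 * (40 / d) :=
          mul_le_mul_of_nonneg_right htop (by positivity)
        have h4 : 6 * (d : ℝ) ^ 2 * (40 / d) = 240 * d := by
          field_simp
          ring
        linarith

theorem count_sum {d H : ℕ} (hd : 100 ≤ d) (hH : 6 * d ^ 2 ≤ H) (hH' : H ≤ 30 * d ^ 2) :
    ∑ a ∈ idx d H, (if a.1 = 0 then (10 : ℝ) / d else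
      open Classical in if a.2.1 < d ∧ 1 ≤ a.2.1 ∧ Active d H (a.2.1 - 1) a.2.2 then (40 : ℝ) / d else 3)
      ≤ 400 * (d : ℝ) ^ 2 := by
  classical
  have hd0 : (0 : ℝ) < d := by
    have : 0 < d := by omega
    exact_mod_cast this
  have hH2 : (H : ℝ) ≤ 30 * (d : ℝ) ^ 2 := by exact_mod_cast hH'
  unfold idx
  rw [Finset.sum_union]
  · -- the leaning part
    have e1 : ∑ a ∈ ({0} ×ˢ Finset.range d ×ˢ Finset.range (d ^ 2) : Finset (ℕ × ℕ × ℕ)),
        (if a.1 = 0 then (10 : ℝ) / d else
          open Classical in if a.2.1 < d ∧ 1 ≤ a.2.1 ∧ Active d H (a.2.1 - 1) a.2.2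
            then (40 : ℝ) / d else 3) = 10 * (d : ℝ) ^ 2 := by
      have : ∀ a ∈ ({0} ×ˢ Finset.range d ×ˢ Finset.range (d ^ 2) : Finset (ℕ × ℕ × ℕ)),
          (if a.1 = 0 then (10 : ℝ) / d else
          open Classical in if a.2.1 < d ∧ 1 ≤ a.2.1 ∧ Active d H (a.2.1 - 1) a.2.2
            then (40 : ℝ) / d else 3) = 10 / d := by
        intro a ha
        rw [Finset.mem_product, Finset.mem_singleton] at ha
        rw [if_pos ha.1]
      rw [Finset.sum_congr rfl this, Finset.sum_const, Finset.card_product, Finset.card_product]
      simp only [Finset.card_singleton, Finset.card_range, one_mul, nsmul_eq_mul]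
      push_cast
      field_simp
    have e2 : ∑ a ∈ (({1} ×ˢ Finset.range (d + 1) ×ˢ Finset.range H : Finset (ℕ × ℕ × ℕ)).filter
          fun a => Active d H a.2.1 a.2.2),
        (if a.1 = 0 then (10 : ℝ) / d else
          open Classical in if a.2.1 < d ∧ 1 ≤ a.2.1 ∧ Active d H (a.2.1 - 1) a.2.2
            then (40 : ℝ) / d else 3) =
        ∑ q ∈ Finset.range (d + 1), ∑ R ∈ Finset.range H,
          (if Active d H q R then countW d H q R else 0) := by
      rw [Finset.sum_filter, Finset.sum_product, Finset.sum_singleton, Finset.sum_product]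
      apply Finset.sum_congr rfl
      intro q _
      apply Finset.sum_congr rfl
      intro R _
      by_cases hA : Active d H q R
      · rw [if_pos hA, if_pos hA, if_neg (by norm_num : ¬ ((1 : ℕ) = 0))]
        rfl
      · rw [if_neg hA, if_neg hA]
    rw [e1]
    refine (add_le_add le_rfl (le_of_eq e2)).trans ?_
    rw [Finset.sum_range_succ]
    have h3 : ∑ q ∈ Finset.range d, ∑ R ∈ Finset.range H,
        (if Active d H q R then countW d H q R else 0) ≤ 258 * (d : ℝ) ^ 2 := by
      calc ∑ q ∈ Finset.range d, ∑ R ∈ Finset.range H,
            (if Active d H q R then countW d H q R else 0)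
          ≤ ∑ q ∈ Finset.range d,
            (240 * (d : ℝ) + 3 * ((countT d (q + 1) : ℝ) - countT d q)) :=
            Finset.sum_le_sum fun q hq => count_row hd (Finset.mem_range.mp hq)
        _ = 240 * (d : ℝ) ^ 2 + 3 * ((countT d d : ℝ) - countT d 0) := by
            rw [Finset.sum_add_distrib, Finset.sum_const, ← Finset.mul_sum,
              Finset.sum_range_sub (fun q => (countT d q : ℝ)),
              Finset.card_range, nsmul_eq_mul]
            ring
        _ ≤ 258 * (d : ℝ) ^ 2 := by
            have h5 : (countT d d : ℝ) ≤ 6 * (d : ℝ) ^ 2 := by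
              obtain ⟨e, rfl⟩ : ∃ e, d = e + 1 := ⟨d - 1, by omega⟩
              change (top (e + 1) e : ℝ) ≤ _
              exact_mod_cast (top_bounds hd (Nat.le_succ e)).2
            have h6 : (0 : ℝ) ≤ countT d 0 := Nat.cast_nonneg _
            linarith
    have h4 : ∑ R ∈ Finset.range H, (if Active d H d R then countW d H d R else 0) ≤
        90 * (d : ℝ) ^ 2 := by
      calc ∑ R ∈ Finset.range H, (if Active d H d R then countW d H d R else 0)
          ≤ ∑ R ∈ Finset.range H, (3 : ℝ) := by
            apply Finset.sum_le_sum
            intro R _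
            by_cases hA : Active d H d R
            · rw [if_pos hA]
              unfold countW
              rw [if_neg (by omega)]
            · rw [if_neg hA]
              norm_num
        _ = H * 3 := by
            rw [Finset.sum_const, Finset.card_range, nsmul_eq_mul]
        _ ≤ 90 * (d : ℝ) ^ 2 := by linarith
    have h7 : (0 : ℝ) ≤ (d : ℝ) ^ 2 := by positivity
    linarith
  · rw [Finset.disjoint_left]
    intro a ha hb
    rw [Finset.mem_product, Finset.mem_singleton] at ha
    rw [Finset.mem_filter, Finset.mem_product, Finset.mem_singleton] at hb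
    have h1 := ha.1
    have h2 := hb.1.1
    omega

end H282R4.PU
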