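import Pool.Agent.H282R3.SQ.Defs

/-!
PROJECT PU: the upper bound `W(x) = O(x^(3/5))` for packing unit squares (Chung-Graham 2020),
needed so that the exact exponent / exact order is a theorem.
All definitions. The integer `d` is the only parameter (large; `x` is about `d^5`).
-/

namespace H282R4.PU

open MeasureTheory
open H282R3.SQ (USq)

/-- `n` open unit squares, pairwise disjoint, contained in `Ω`. -/
def Fits (Ω : Set (ℝ × ℝ)) (n : ℕ) : Prop :=
  ∃ Q : Fin n → USq, (∀ i, (Q i).O ⊆ Ω) ∧ ∀ i j, i ≠ j → Disjoint (Q i).O (Q j).O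

/-- `Ω` can be packed with waste at most `w`. -/
def Wle (Ω : Set (ℝ × ℝ)) (w : ℝ) : Prop :=
  0 ≤ w ∧ ∃ n : ℕ, Fits Ω n ∧ volume Ω ≤ ENNReal.ofReal (n + w)

/-- across coordinate in the frame `(a,b)` -/
def ax (a b : ℝ) (z : ℝ × ℝ) : ℝ := a * z.1 + b * z.2

/-- along coordinate in the frame `(a,b)` -/
def al (a b : ℝ) (z : ℝ × ℝ) : ℝ := -b * z.1 + a * z.2

/-- strip of width one in the frame `(a,b)`: across coordinate in `[p,p+1)`, along coordinate
between two affine functions of the across coordinate. -/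
def Strip (a b p f0 f1 g0 g1 : ℝ) : Set (ℝ × ℝ) :=
  {z | p ≤ ax a b z ∧ ax a b z < p + 1 ∧ f0 + f1 * (ax a b z - p) ≤ al a b z ∧
    al a b z < g0 + g1 * (ax a b z - p)}

/-- slope of the rows: the row lines are `y + t x = R s` -/
noncomputable def t (d : ℕ) : ℝ := 1 / ((d : ℝ) ^ 2 + 2)

/-- `√(1+t²)` -/
noncomputable def s (d : ℕ) : ℝ := Real.sqrt (1 + t d ^ 2)

/-- slopes `dx/dy` of the leaning columns of block `q` -/
noncomputable def tau (d : ℕ) : ℕ → ℝ
  | 0 => 1 / d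
  | q + 1 => tau d q - (d : ℝ) ^ 2 / 4 * tau d q ^ 4

/-- `√(1+τ²)` -/
noncomputable def kap (d q : ℕ) : ℝ := Real.sqrt (1 + tau d q ^ 2)

/-- gap between consecutive blocks -/
noncomputable def gam (d : ℕ) : ℝ := 8 / d

/-- left end of block `q` on the floor; the block has `d²` columns of horizontal width `kap` -/
noncomputable def B (d : ℕ) : ℕ → ℝ
  | 0 => 0
  | q + 1 => B d q + (d : ℝ) ^ 2 * kap d q + gam d

/-- excess per square of a leaning column: about `(τ-t)²/2` -/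
noncomputable def eps (d q : ℕ) : ℝ := kap d q * s d / (1 + t d * tau d q) - 1

/-- `tan(θ_q - β)` -/
noncomputable def phi (d q : ℕ) : ℝ := (tau d q - t d) / (1 + t d * tau d q)

/-- threshold of group `i` (a group is `d` consecutive columns) -/
noncomputable def aa (d i : ℕ) : ℝ := 1 / d + (1 + 1 / (d : ℝ) ^ 2) * t d * (i + 1) * d

/-- number of squares in each column of group `i` of block `q` -/
noncomputable def r (d q i : ℕ) : ℕ := ⌈aa d i / eps d q⌉₊

/-- height of the row line `q` above the floor at the left end of block `q` -/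
noncomputable def cc (d q : ℕ) : ℝ := q * s d - t d * B d q

/-- first row above the leaning part of block `q` -/
noncomputable def top (d q : ℕ) : ℕ := q + r d q (d - 1)

/-- width of the super-period cell; `t Z = (d+3) s` -/
noncomputable def Z (d : ℕ) : ℝ := ((d : ℝ) + 3) * s d / t d

/-- super-period cell with `H` rows -/
def SP (d H : ℕ) : Set (ℝ × ℝ) :=
  {z | 0 ≤ z.1 ∧ z.1 < Z d ∧ 0 ≤ z.2 ∧ z.2 + t d * z.1 < H * s d}

/-- row `R` -/
def Row (d R : ℕ) : Set (ℝ × ℝ) :=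
  {z | R * s d ≤ z.2 + t d * z.1 ∧ z.2 + t d * z.1 < (R + 1) * s d}

/-- right of the line `Λ_q` that bounds block `q` on the right -/
def RightOf (d q : ℕ) : Set (ℝ × ℝ) := {z | B d q + (d : ℝ) ^ 2 * kap d q + tau d q * z.2 ≤ z.1}

/-- leaning column `j` of block `q` (`q < d`, `j < d²`) -/
def LC (d q j : ℕ) : Set (ℝ × ℝ) :=
  {z | j * kap d q ≤ z.1 - B d q - tau d q * z.2 ∧
    z.1 - B d q - tau d q * z.2 < (j + 1) * kap d q ∧ 0 ≤ z.2 ∧
    z.2 + t d * z.1 < (q + r d q (j / d) : ℕ) * s d}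

/-- number of groups of block `q` that have ended at local row `ρ` -/
noncomputable def gg (d q ρ : ℕ) : ℕ := ((Finset.range d).filter (fun i => r d q i ≤ ρ)).card

/-- block `q` has leaning columns in row `R`; `q = d` stands for the right wall `x = Z` -/
def Active (d H q R : ℕ) : Prop :=
  (q < d ∧ q ≤ R ∧ R < top d q) ∨ (q = d ∧ d + 3 ≤ R ∧ R < H)

/-- left boundary condition of the segment `(q,R)` -/
def LeftC (d H q R : ℕ) : Set (ℝ × ℝ) :=
  {z | (1 ≤ q ∧ Active d H (q - 1) R → z ∈ RightOf d (q - 1)) ∧ 0 ≤ z.1}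

/-- right boundary condition of the segment `(q,R)` -/
def RightC (d q R : ℕ) : Set (ℝ × ℝ) :=
  {z | (q < d → z.1 < B d q + kap d q * d * gg d q (R - q) + tau d q * z.2) ∧
    (q = d → z.1 < Z d)}

/-- the row segment that ends at block `q`, in row `R` -/
def Seg (d H q R : ℕ) : Set (ℝ × ℝ) := Row d R ∩ LeftC d H q R ∩ RightC d q R

/-- points of the cell that are not covered (area `O(d²)`) -/
def Ex (d : ℕ) : Set (ℝ × ℝ) :=
  {z | 0 ≤ z.1 ∧ z.1 < Z d ∧ 0 ≤ z.2 ∧ ((z.2 + t d * z.1 < (d + 3) * s d ∧ B d d - gam d ≤ z.1) ∨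
    ∃ q : ℕ, 1 ≤ q ∧ q < d ∧ z.2 + t d * z.1 < q * s d ∧ B d q - gam d ≤ z.1)}

/-- indices of the cells: `(0,q,j)` leaning column, `(1,q,R)` segment -/
noncomputable def idx (d H : ℕ) : Finset (ℕ × ℕ × ℕ) :=
  open Classical in
  ({0} ×ˢ Finset.range d ×ˢ Finset.range (d ^ 2)) ∪
    (({1} ×ˢ Finset.range (d + 1) ×ˢ Finset.range H).filter fun a => Active d H a.2.1 a.2.2)

/-- the cells -/
def Cell (d H : ℕ) (a : ℕ × ℕ × ℕ) : Set (ℝ × ℝ) :=
  if a.1 = 0 then LC d a.2.1 a.2.2 else Seg d H a.2.1 a.2.2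

/-- region between the floor and a row line, over `[0,A)` -/
def T1 (d : ℕ) (A c : ℝ) (H : ℕ) : Set (ℝ × ℝ) :=
  {z | 0 ≤ z.1 ∧ z.1 < A ∧ 0 ≤ z.2 ∧ z.2 + t d * z.1 < c + H * s d}

end H282R4.PU
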