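import Pool.Agent.H282R4.PU.Par
import Pool.Agent.H282R4.PU.Par2

/-!
Module Order (helper231): the order of the blocks.
-/

namespace H282R4.PU

open MeasureTheory
open H282R3.SQ (USq)

theorem order_d {d : ℕ} (hd : 100 ≤ d) : (100 : ℝ) ≤ d := by exact_mod_cast hd

theorem order_t {d : ℕ} (hd : 100 ≤ d) : 0 < t d ∧ t d * (d : ℝ) ^ 2 ≤ 1 ∧ t d ≤ 1 / 10000 := by
  have hD := order_d hd
  obtain ⟨h1, h2, h3⟩ := t_bounds hd
  refine ⟨h1, by nlinarith, ?_⟩
  nlinarith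

theorem order_s {d : ℕ} (hd : 100 ≤ d) : 1 < s d ∧ s d ≤ 101 / 100 := by
  obtain ⟨h1, h2, -, -⟩ := s_bounds hd
  obtain ⟨h3, -, h4⟩ := order_t hd
  refine ⟨h1, ?_⟩
  nlinarith

theorem order_kap {d : ℕ} (hd : 100 ≤ d) {q : ℕ} (hq : q ≤ d) :
    1 < kap d q ∧ (d : ℝ) ^ 2 * kap d q ≤ (d : ℝ) ^ 2 + 1 / 2 ∧ kap d q ≤ 101 / 100 := by
  have hD := order_d hd
  obtain ⟨h1, h2, -⟩ := kap_bounds hd hq
  have h3 : (0 : ℝ) < (d : ℝ) ^ 2 := by positivity
  have h4 : (d : ℝ) ^ 2 * kap d q ≤ (d : ℝ) ^ 2 + 1 / 2 := by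
    calc (d : ℝ) ^ 2 * kap d q ≤ (d : ℝ) ^ 2 * (1 + 1 / (2 * (d : ℝ) ^ 2)) :=
          mul_le_mul_of_nonneg_left h2 h3.le
      _ = (d : ℝ) ^ 2 + 1 / 2 := by field_simp
  refine ⟨h1, h4, ?_⟩
  nlinarith

theorem order_eps {d : ℕ} (hd : 100 ≤ d) {q : ℕ} (hq : q ≤ d) :
    1 ≤ 5 * (eps d q * (d : ℝ) ^ 2) ∧ eps d q * (d : ℝ) ^ 2 ≤ 1 / 2 ∧ 0 < eps d q ∧
      eps d q * d ≤ 1 / 200 ∧ eps d q ≤ 1 := by
  have hD := order_d hd
  obtain ⟨-, -, h1, h2⟩ := eps_bounds hd hq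
  have h3 : (0 : ℝ) < (d : ℝ) ^ 2 := by positivity
  have h4 : 1 ≤ 5 * (eps d q * (d : ℝ) ^ 2) := by
    rw [div_le_iff₀ (by positivity)] at h1
    linarith
  have h5 : eps d q * (d : ℝ) ^ 2 ≤ 1 / 2 := by
    rw [le_div_iff₀ (by positivity)] at h2
    linarith
  have h6 : 0 < eps d q := by
    by_contra hcon
    push Not at hcon
    nlinarith
  have h7 : eps d q * d ≤ 1 / 200 := by
    have : (eps d q * d) * 100 ≤ eps d q * (d : ℝ) ^ 2 := by nlinarith
    linarith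
  refine ⟨h4, h5, h6, h7, ?_⟩
  nlinarith

/-- the threshold is small -/
theorem order_aa {d : ℕ} (hd : 100 ≤ d) (i : ℕ) : aa d i * d ≤ 1 + 101 / 100 * (i + 1) := by
  have hD := order_d hd
  obtain ⟨h1, h2, h3⟩ := order_t hd
  have hi : (0 : ℝ) ≤ (i : ℝ) + 1 := by positivity
  have h4 : aa d i * d = 1 + (1 + 1 / (d : ℝ) ^ 2) * (t d * (d : ℝ) ^ 2) * (i + 1) := by
    unfold aa
    have : (d : ℝ) ≠ 0 := by positivity
    field_simp
  rw [h4]
  have h5 : (1 + 1 / (d : ℝ) ^ 2) ≤ 101 / 100 := by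
    have : 1 / (d : ℝ) ^ 2 ≤ 1 / 100 := by
      apply one_div_le_one_div_of_le (by norm_num)
      nlinarith
    linarith
  have h6 : (1 + 1 / (d : ℝ) ^ 2) * (t d * (d : ℝ) ^ 2) ≤ 101 / 100 := by
    have h7 : (0 : ℝ) ≤ t d * (d : ℝ) ^ 2 := by positivity
    nlinarith
  have h8 := mul_le_mul_of_nonneg_right h6 hi
  linarith

theorem order_div {d j : ℕ} (hd : 100 ≤ d) (hj : j < d ^ 2) : j / d ≤ d - 1 := by
  have h1 : j / d < d := by
    apply Nat.div_lt_of_lt_mul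
    nlinarith
  omega

theorem LC_right {d : ℕ} (hd : 100 ≤ d) {q j : ℕ} (h1 : 1 ≤ q) (hq : q < d) (hj : j < d ^ 2) :
    LC d q j ⊆ RightOf d (q - 1) := by
  rintro z ⟨hz1, hz2, hz3, hz4⟩
  obtain ⟨p, rfl⟩ : ∃ p, q = p + 1 := ⟨q - 1, by omega⟩
  have hp : p + 1 - 1 = p := by omega
  rw [hp]
  show B d p + (d : ℝ) ^ 2 * kap d p + tau d p * z.2 ≤ z.1
  have hD := order_d hd
  obtain ⟨ht0, ht1, ht2⟩ := order_t hd
  obtain ⟨hs1, hs2⟩ := order_s hd
  obtain ⟨he1, he2, he3, he4, he5⟩ := order_eps hd (q := p + 1) hq.le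
  obtain ⟨hT1, hT2⟩ := tau_bounds hd (q := p) (by omega)
  obtain ⟨hU1, hU2⟩ := tau_bounds hd (q := p + 1) hq.le
  obtain ⟨hk1, hk2, hk3⟩ := order_kap hd (q := p + 1) hq.le
  obtain ⟨hr1, hr2⟩ := r_bounds hd (q := p + 1) (i := j / d) hq.le
  obtain ⟨hc1, hc2⟩ := cc_bounds hd (q := p + 1) hq.le
  have haa := order_aa hd (j / d)
  have hB : B d (p + 1) = B d p + (d : ℝ) ^ 2 * kap d p + gam d := rfl
  have hU : tau d (p + 1) = tau d p - (d : ℝ) ^ 2 / 4 * tau d p ^ 4 := rfl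
  have hgam : gam d * d = 8 := by
    unfold gam
    field_simp
  have hDpos : (0 : ℝ) < d := by linarith
  have hU0 : 0 < tau d (p + 1) := lt_of_lt_of_le (by positivity) hU1
  have hT0 : 0 < tau d p := lt_of_lt_of_le (by positivity) hT1
  -- the difference of the slopes
  have hTd : tau d p * d ≤ 1 := by
    rw [le_div_iff₀ hDpos] at hT2
    exact hT2
  have hdiff : (tau d p - tau d (p + 1)) * (d : ℝ) ^ 2 ≤ 1 / 4 := by
    rw [hU]
    have h3 : (tau d p * d) ^ 4 ≤ 1 := pow_le_one₀ (by positivity) hTd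
    have h4 : (tau d p - (tau d p - (d : ℝ) ^ 2 / 4 * tau d p ^ 4)) * (d : ℝ) ^ 2 =
        (tau d p * d) ^ 4 / 4 := by ring
    rw [h4]
    linarith
  have hdiff0 : 0 ≤ tau d p - tau d (p + 1) := by
    rw [hU]
    have : 0 ≤ (d : ℝ) ^ 2 / 4 * tau d p ^ 4 := by positivity
    linarith
  have hdE : tau d p - tau d (p + 1) ≤ 5 / 4 * eps d (p + 1) := by
    have h3 : (0 : ℝ) < (d : ℝ) ^ 2 := by positivity
    have h4 : (tau d p - tau d (p + 1)) * (d : ℝ) ^ 2 ≤ (5 / 4 * eps d (p + 1)) * (d : ℝ) ^ 2 := by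
      linarith
    exact le_of_mul_le_mul_right h4 h3
  -- the height
  have hB0 : 0 ≤ B d (p + 1) := by
    have := (B_bounds hd (q := p + 1) hq.le).1
    have h3 : (0 : ℝ) ≤ ((p + 1 : ℕ) : ℝ) * (d : ℝ) ^ 2 := by positivity
    linarith
  have hj0 : (0 : ℝ) ≤ j := Nat.cast_nonneg j
  have hx : B d (p + 1) ≤ z.1 := by
    have h3 : 0 ≤ tau d (p + 1) * z.2 := by positivity
    have h4 : 0 ≤ (j : ℝ) * kap d (p + 1) := by positivity
    linarith
  have hz : z.2 ≤ cc d (p + 1) + r d (p + 1) (j / d) * s d := by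
    have h3 : t d * B d (p + 1) ≤ t d * z.1 := mul_le_mul_of_nonneg_left hx ht0.le
    unfold cc
    push_cast at hz4 ⊢
    linarith
  have hEz : eps d (p + 1) * z.2 * d ≤ 205 / 100 + 103 / 100 * ((j / d : ℕ) : ℝ) := by
    have hi0 : (0 : ℝ) ≤ ((j / d : ℕ) : ℝ) := Nat.cast_nonneg _
    have h3 : eps d (p + 1) * z.2 ≤ eps d (p + 1) * (3 / d) +
        (r d (p + 1) (j / d) * eps d (p + 1)) * s d := by
      have h4 := mul_le_mul_of_nonneg_left hz he3.le
      have h5 := mul_le_mul_of_nonneg_left hc2 he3.le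
      nlinarith
    have h6 : (r d (p + 1) (j / d) * eps d (p + 1)) * s d ≤
        (aa d (j / d) + eps d (p + 1)) * (101 / 100) := by
      have h7 : 0 ≤ r d (p + 1) (j / d) * eps d (p + 1) := by positivity
      calc (r d (p + 1) (j / d) * eps d (p + 1)) * s d ≤
            (r d (p + 1) (j / d) * eps d (p + 1)) * (101 / 100) :=
              mul_le_mul_of_nonneg_left hs2 h7
        _ ≤ _ := mul_le_mul_of_nonneg_right hr2 (by norm_num)
    have h8 : eps d (p + 1) * z.2 * d ≤ (eps d (p + 1) * (3 / d) +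
        (aa d (j / d) + eps d (p + 1)) * (101 / 100)) * d :=
      mul_le_mul_of_nonneg_right (h3.trans (by linarith)) hDpos.le
    have h9 : (eps d (p + 1) * (3 / d) + (aa d (j / d) + eps d (p + 1)) * (101 / 100)) * d =
        3 * eps d (p + 1) + (aa d (j / d) * d) * (101 / 100) +
          (eps d (p + 1) * d) * (101 / 100) := by
      field_simp
      ring
    rw [h9] at h8
    have h10 : eps d (p + 1) ≤ 1 / 20000 := by nlinarith
    linarith
  -- conclusion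
  have hij : ((j / d : ℕ) : ℝ) ≤ j := by exact_mod_cast Nat.div_le_self j d
  have hfin : (tau d p - tau d (p + 1)) * z.2 ≤ j * kap d (p + 1) + gam d := by
    have h3 : (tau d p - tau d (p + 1)) * z.2 ≤ 5 / 4 * eps d (p + 1) * z.2 :=
      mul_le_mul_of_nonneg_right hdE hz3
    have h4 : (tau d p - tau d (p + 1)) * z.2 * d ≤ (j * kap d (p + 1) + gam d) * d := by
      have h5 := mul_le_mul_of_nonneg_right h3 hDpos.le
      have h6 : (j : ℝ) * d ≤ j * kap d (p + 1) * d := by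
        have : (j : ℝ) * 1 ≤ j * kap d (p + 1) := mul_le_mul_of_nonneg_left hk1.le hj0
        nlinarith
      have h7 : (j : ℝ) * 100 ≤ j * d := mul_le_mul_of_nonneg_left hD hj0
      have h8 : (j * kap d (p + 1) + gam d) * d = j * kap d (p + 1) * d + 8 := by
        rw [add_mul, hgam]
      have h9 : 5 / 4 * eps d (p + 1) * z.2 * d = 5 / 4 * (eps d (p + 1) * z.2 * d) := by ring
      rw [h8]
      rw [h9] at h5
      linarith
    exact le_of_mul_le_mul_right h4 hDpos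
  have h12 : tau d p * z.2 = tau d (p + 1) * z.2 + (tau d p - tau d (p + 1)) * z.2 := by ring
  rw [h12]
  linarith

theorem right_anti {d : ℕ} (hd : 100 ≤ d) {q q' : ℕ} (h : q ≤ q') (hq : q' < d) {z : ℝ × ℝ}
    (hz : z ∈ RightOf d q') (h0 : 0 ≤ z.2) (h1 : z.2 ≤ 40 * (d : ℝ) ^ 2) : z ∈ RightOf d q := by
  rcases h.eq_or_lt with rfl | hlt
  · exact hz
  have hD := order_d hd
  have hz' : B d q' + (d : ℝ) ^ 2 * kap d q' + tau d q' * z.2 ≤ z.1 := hz
  show B d q + (d : ℝ) ^ 2 * kap d q + tau d q * z.2 ≤ z.1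
  have hB := B_diff hd h hq.le
  obtain ⟨hk1, hk2, -⟩ := order_kap hd (q := q) (by omega)
  obtain ⟨hk1', -, -⟩ := order_kap hd (q := q') hq.le
  obtain ⟨ht1, ht2⟩ := tau_anti hd h hq.le
  have h3 : (0 : ℝ) < (d : ℝ) ^ 2 := by positivity
  have hqq : (1 : ℝ) ≤ (q' : ℝ) - q := by
    have : q + 1 ≤ q' := hlt
    have : ((q + 1 : ℕ) : ℝ) ≤ q' := by exact_mod_cast this
    push_cast at this
    linarith
  have h4 : (tau d q - tau d q') * z.2 ≤ 10 * ((q' : ℝ) - q) := by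
    have h5 : tau d q - tau d q' ≤ ((q' : ℝ) - q) / (4 * (d : ℝ) ^ 2) := by linarith
    calc (tau d q - tau d q') * z.2 ≤ ((q' : ℝ) - q) / (4 * (d : ℝ) ^ 2) * z.2 :=
          mul_le_mul_of_nonneg_right h5 h0
      _ ≤ ((q' : ℝ) - q) / (4 * (d : ℝ) ^ 2) * (40 * (d : ℝ) ^ 2) :=
          mul_le_mul_of_nonneg_left h1 (by positivity)
      _ = 10 * ((q' : ℝ) - q) := by field_simp; norm_num
  have h6 : (d : ℝ) ^ 2 * 1 ≤ (d : ℝ) ^ 2 * kap d q' := mul_le_mul_of_nonneg_left hk1'.le h3.le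
  have h7 : (10000 : ℝ) ≤ (d : ℝ) ^ 2 := by nlinarith
  have h8 : ((q' : ℝ) - q) * 10000 ≤ ((q' : ℝ) - q) * (d : ℝ) ^ 2 :=
    mul_le_mul_of_nonneg_left h7 (by linarith)
  have h9 : tau d q * z.2 = tau d q' * z.2 + (tau d q - tau d q') * z.2 := by ring
  rw [h9]
  linarith

theorem LC_left {d : ℕ} (hd : 100 ≤ d) {q j : ℕ} (hq : q < d) (hj : j < d ^ 2) {z : ℝ × ℝ}
    (hz : z ∈ LC d q j) : z ∉ RightOf d q ∧ 0 ≤ z.1 ∧ 0 ≤ z.2 ∧ z.2 ≤ 7 * (d : ℝ) ^ 2 := by
  obtain ⟨hz1, hz2, hz3, hz4⟩ := hz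
  have hD := order_d hd
  obtain ⟨ht0, ht1, ht2⟩ := order_t hd
  obtain ⟨hs1, hs2⟩ := order_s hd
  obtain ⟨hk1, hk2, hk3⟩ := order_kap hd (q := q) hq.le
  obtain ⟨hU1, hU2⟩ := tau_bounds hd (q := q) hq.le
  have hU0 : 0 < tau d q := lt_of_lt_of_le (by positivity) hU1
  have hj0 : (0 : ℝ) ≤ j := Nat.cast_nonneg j
  have hB0 : 0 ≤ B d q := by
    have := (B_bounds hd (q := q) hq.le).1
    have h3 : (0 : ℝ) ≤ (q : ℝ) * (d : ℝ) ^ 2 := by positivity
    linarith
  have hx : 0 ≤ z.1 := by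
    have h3 : 0 ≤ tau d q * z.2 := by positivity
    have h4 : 0 ≤ (j : ℝ) * kap d q := by positivity
    linarith
  refine ⟨?_, hx, hz3, ?_⟩
  · intro hR
    have hR' : B d q + (d : ℝ) ^ 2 * kap d q + tau d q * z.2 ≤ z.1 := hR
    have h3 : ((j : ℝ) + 1) ≤ (d : ℝ) ^ 2 := by
      have : j + 1 ≤ d ^ 2 := hj
      exact_mod_cast this
    have h4 : ((j : ℝ) + 1) * kap d q ≤ (d : ℝ) ^ 2 * kap d q :=
      mul_le_mul_of_nonneg_right h3 (by linarith)
    linarith
  · have h3 : q + r d q (j / d) ≤ 6 * d ^ 2 := by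
      have h4 := r_mono hd (le_refl q) hq.le (order_div hd hj)
      have h5 := (top_bounds hd (q := q) hq.le).2
      unfold top at h5
      omega
    have h6 : (((q + r d q (j / d) : ℕ)) : ℝ) ≤ 6 * (d : ℝ) ^ 2 := by exact_mod_cast h3
    have h7 : (((q + r d q (j / d) : ℕ)) : ℝ) * s d ≤ 6 * (d : ℝ) ^ 2 * (101 / 100) :=
      mul_le_mul h6 hs2 (by linarith) (by positivity)
    have h8 : 0 ≤ t d * z.1 := by positivity
    nlinarith

theorem seg_left {d H : ℕ} (hd : 100 ≤ d) (hH : 6 * d ^ 2 ≤ H) (hH' : H ≤ 30 * d ^ 2) {q R : ℕ}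
    (hq : q ≤ d) (h : Active d H q R) {z : ℝ × ℝ} (hz : z ∈ Seg d H q R) :
    (q < d → z ∉ RightOf d q) ∧ 0 ≤ z.1 ∧ 0 ≤ z.2 ∧ z.2 ≤ 40 * (d : ℝ) ^ 2 := by
  obtain ⟨⟨⟨hr1, hr2⟩, -, hx⟩, hc1, hc2⟩ := hz
  have hD := order_d hd
  obtain ⟨ht0, ht1, ht2⟩ := order_t hd
  obtain ⟨hs1, hs2⟩ := order_s hd
  obtain ⟨hk1, hk2, hk3⟩ := order_kap hd (q := q) hq
  obtain ⟨hU1, hU2⟩ := tau_bounds hd (q := q) hq
  have hU0 : 0 < tau d q := lt_of_lt_of_le (by positivity) hU1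
  have hDpos : (0 : ℝ) < d := by linarith
  have h8 : 0 ≤ t d * z.1 := by positivity
  refine ⟨?_, hx, ?_, ?_⟩
  · intro hlt hR
    have hR' : B d q + (d : ℝ) ^ 2 * kap d q + tau d q * z.2 ≤ z.1 := hR
    have h3 := hc1 hlt
    have h4 : (gg d q (R - q) : ℝ) ≤ d := by exact_mod_cast gg_le d q (R - q)
    have h5 : kap d q * d * gg d q (R - q) ≤ kap d q * d * d :=
      mul_le_mul_of_nonneg_left h4 (by positivity)
    nlinarith
  · rcases h with ⟨hlt, hqR, hRt⟩ | ⟨hqd, hRd, hRH⟩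
    · have h3 := hc1 hlt
      obtain ⟨g, hg⟩ : ∃ g, g = gg d q (R - q) := ⟨_, rfl⟩
      rw [← hg] at h3
      obtain ⟨hcc, -⟩ := cc_bounds hd (q := q) hq
      unfold cc at hcc
      obtain ⟨ρ, hρ⟩ : ∃ ρ : ℕ, R = q + ρ := ⟨R - q, by omega⟩
      have hRcast : (R : ℝ) = q + ρ := by rw [hρ]; push_cast; ring
      have hRq : R - q = ρ := by omega
      rw [hRq] at hg
      have hkey : t d * (kap d q * d * g) ≤ ρ * s d := by
        have hρ0 : (0 : ℝ) ≤ ρ := Nat.cast_nonneg ρ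
        have hρs : (ρ : ℝ) ≤ ρ * s d := by nlinarith
        rcases Nat.eq_zero_or_pos g with h0 | hpos
        · rw [h0]
          simp only [Nat.cast_zero, mul_zero]
          positivity
        · have hgd : g ≤ d := by rw [hg]; exact gg_le d q ρ
          have h5 : r d q (g - 1) ≤ ρ := by
            rw [← gg_iff hd hq ρ (g - 1) (by omega), ← hg]
            omega
          have h6 : (r d q (g - 1) : ℝ) ≤ ρ := by exact_mod_cast h5
          have h7 := (r_bounds hd (q := q) (i := g - 1) hq).1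
          obtain ⟨-, -, he3, -, he5⟩ := order_eps hd (q := q) hq
          have h9 : (r d q (g - 1) : ℝ) * eps d q ≤ r d q (g - 1) * 1 :=
            mul_le_mul_of_nonneg_left he5 (Nat.cast_nonneg _)
          have hgc : ((g - 1 : ℕ) : ℝ) + 1 = g := by
            have : g - 1 + 1 = g := by omega
            exact_mod_cast this
          have h10 : t d * (kap d q * d * g) ≤ aa d (g - 1) := by
            unfold aa
            rw [hgc]
            obtain ⟨-, hkk, -⟩ := kap_bounds hd hq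
            have h11 : kap d q ≤ 1 + 1 / (d : ℝ) ^ 2 := by
              have h12 : 1 / (2 * (d : ℝ) ^ 2) ≤ 1 / (d : ℝ) ^ 2 := by
                apply one_div_le_one_div_of_le (by positivity)
                nlinarith [sq_nonneg (d : ℝ)]
              linarith
            have h13 : 0 ≤ t d * g * d := by positivity
            have h14 : kap d q * (t d * g * d) ≤ (1 + 1 / (d : ℝ) ^ 2) * (t d * g * d) :=
              mul_le_mul_of_nonneg_right h11 h13
            have h15 : 0 ≤ 1 / (d : ℝ) := by positivity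
            calc t d * (kap d q * d * g) = kap d q * (t d * g * d) := by ring
              _ ≤ (1 + 1 / (d : ℝ) ^ 2) * (t d * g * d) := h14
              _ ≤ _ := by
                  have : (1 + 1 / (d : ℝ) ^ 2) * (t d * g * d) =
                      (1 + 1 / (d : ℝ) ^ 2) * t d * g * d := by ring
                  rw [this]
                  linarith
          linarith
      have h16 : 0 ≤ z.2 * (1 + t d * tau d q) := by
        have h17 : t d * z.1 ≤ t d * (B d q + kap d q * d * g + tau d q * z.2) :=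
          mul_le_mul_of_nonneg_left h3.le ht0.le
        rw [hRcast] at hr1
        have h18 : t d * (B d q + kap d q * d * g + tau d q * z.2) =
            t d * B d q + t d * (kap d q * d * g) + z.2 * (t d * tau d q) := by ring
        rw [h18] at h17
        have h19 : ((q : ℝ) + ρ) * s d = q * s d + ρ * s d := by ring
        rw [h19] at hr1
        have h20 : z.2 * (1 + t d * tau d q) = z.2 + z.2 * (t d * tau d q) := by ring
        rw [h20]
        linarith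
      have h21 : 0 < 1 + t d * tau d q := by positivity
      exact nonneg_of_mul_nonneg_left h16 h21
    · have h3 := hc2 hqd
      obtain ⟨-, -, -, -, hZ⟩ := Z_bounds hd
      have h4 : t d * z.1 ≤ t d * Z d := mul_le_mul_of_nonneg_left h3.le ht0.le
      have h5 : ((d : ℝ) + 3) ≤ R := by
        have : ((d + 3 : ℕ) : ℝ) ≤ R := by exact_mod_cast hRd
        push_cast at this
        exact this
      have h6 : ((d : ℝ) + 3) * s d ≤ R * s d := mul_le_mul_of_nonneg_right h5 (by linarith)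
      linarith
  · have hRH : R + 1 ≤ 30 * d ^ 2 := by
      rcases h with ⟨hlt, hqR, hRt⟩ | ⟨hqd, hRd, hRH⟩
      · have := (top_bounds hd (q := q) hq).2
        omega
      · omega
    have h6 : ((R : ℝ) + 1) ≤ 30 * (d : ℝ) ^ 2 := by exact_mod_cast hRH
    have h7 : ((R : ℝ) + 1) * s d ≤ 30 * (d : ℝ) ^ 2 * (101 / 100) :=
      mul_le_mul h6 hs2 (by linarith) (by positivity)
    nlinarith

end H282R4.PU
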