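import Pool.Agent.H282R4.PU.Defs
import Pool.Agent.H282R4.PU.Par
import Pool.Agent.H282R4.PU.Par2
import Pool.Agent.H282R4.PU.Order

namespace H282R4.PU

open MeasureTheory
open H282R3.SQ (USq)

/-- two columns of the same block -/
theorem Disj_LL {d : ℕ} (hd : 100 ≤ d) {q j j' : ℕ} (hq : q < d) (hjj : j ≠ j') {z : ℝ × ℝ}
    (h : z ∈ LC d q j) (h' : z ∈ LC d q j') : False := by
  obtain ⟨hk, -, -⟩ := kap_bounds hd hq.le
  obtain ⟨a1, a2, -, -⟩ := h
  obtain ⟨b1, b2, -, -⟩ := h'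
  have hk0 : 0 < kap d q := by linarith
  have h1 : (j : ℝ) < (j' : ℝ) + 1 := lt_of_mul_lt_mul_right (lt_of_le_of_lt a1 b2) hk0.le
  have h2 : (j' : ℝ) < (j : ℝ) + 1 := lt_of_mul_lt_mul_right (lt_of_le_of_lt b1 a2) hk0.le
  have h3 : j < j' + 1 := by exact_mod_cast h1
  have h4 : j' < j + 1 := by exact_mod_cast h2
  omega

theorem Disj_sq {d : ℕ} (hd : 100 ≤ d) {z : ℝ × ℝ} (h : z.2 ≤ 7 * (d : ℝ) ^ 2) :
    z.2 ≤ 40 * (d : ℝ) ^ 2 := by
  have h1 : 0 ≤ (d : ℝ) ^ 2 := by positivity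
  linarith

/-- two columns of different blocks -/
theorem Disj_LL' {d : ℕ} (hd : 100 ≤ d) {q q' j j' : ℕ} (hq' : q' < d) (hj : j < d ^ 2)
    (hj' : j' < d ^ 2) (hqq : q < q') {z : ℝ × ℝ}
    (h : z ∈ LC d q j) (h' : z ∈ LC d q' j') : False := by
  obtain ⟨e1, e2, e3, e4⟩ := LC_left hd (hqq.trans hq') hj h
  have h1 := LC_right hd (by omega) hq' hj' h'
  exact e1 (right_anti hd (by omega) (by omega) h1 e3 (Disj_sq hd e4))

/-- a column and a segment of the same block -/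
theorem Disj_LS {d H : ℕ} (hd : 100 ≤ d) {q j R : ℕ} (hq : q < d) (hj : j < d ^ 2)
    (hA : Active d H q R) {z : ℝ × ℝ} (h : z ∈ LC d q j) (h' : z ∈ Seg d H q R) : False := by
  obtain ⟨hk, -, -⟩ := kap_bounds hd hq.le
  obtain ⟨hs, -, -, -⟩ := s_bounds hd
  obtain ⟨a1, a2, a3, a4⟩ := h
  obtain ⟨⟨⟨b1, b2⟩, -⟩, b3, -⟩ := h'
  have b4 := b3 hq
  have hk0 : 0 < kap d q := by linarith
  have hqR : q ≤ R := by
    rcases hA with h | h
    · exact h.2.1
    · omega
  have h1 : (j : ℝ) < d * gg d q (R - q) := by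
    apply lt_of_mul_lt_mul_right _ hk0.le
    calc (j : ℝ) * kap d q ≤ z.1 - B d q - tau d q * z.2 := a1
      _ < kap d q * d * gg d q (R - q) := by linarith
      _ = _ := by ring
  have h2 : j < d * gg d q (R - q) := by exact_mod_cast h1
  have h3 : j / d < gg d q (R - q) := Nat.div_lt_of_lt_mul h2
  have h4 : j / d < d := by
    apply Nat.div_lt_of_lt_mul
    rw [pow_two] at hj
    exact hj
  have h5 := (gg_iff hd hq.le (R - q) (j / d) h4).1 h3
  have h6 : q + r d q (j / d) ≤ R := by omega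
  have h7 : ((q + r d q (j / d) : ℕ) : ℝ) ≤ R := by exact_mod_cast h6
  have h8 : ((q + r d q (j / d) : ℕ) : ℝ) * s d ≤ R * s d :=
    mul_le_mul_of_nonneg_right h7 (by linarith)
  linarith

/-- a column and a segment of an earlier block -/
theorem Disj_LS1 {d H : ℕ} (hd : 100 ≤ d) (hH : 6 * d ^ 2 ≤ H) (hH' : H ≤ 30 * d ^ 2)
    {q q' j R : ℕ} (hq : q < d) (hj : j < d ^ 2) (hqq : q' < q)
    (hA : Active d H q' R) {z : ℝ × ℝ} (h : z ∈ LC d q j) (h' : z ∈ Seg d H q' R) : False := by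
  obtain ⟨e1, e2, e3, e4⟩ := LC_left hd hq hj h
  obtain ⟨f1, -, -, -⟩ := seg_left hd hH hH' (by omega) hA h'
  have h1 := LC_right hd (by omega) hq hj h
  exact f1 (by omega) (right_anti hd (by omega) (by omega) h1 e3 (Disj_sq hd e4))

/-- a column and a segment of a later block -/
theorem Disj_LS2 {d H : ℕ} (hd : 100 ≤ d)
    {q q' j R : ℕ} (hq : q' ≤ d) (hj : j < d ^ 2) (hqq : q < q')
    (hA : Active d H q' R) {z : ℝ × ℝ} (h : z ∈ LC d q j) (h' : z ∈ Seg d H q' R) : False := by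
  obtain ⟨e1, e2, e3, e4⟩ := LC_left hd (by omega) hj h
  obtain ⟨hs, -, -, -⟩ := s_bounds hd
  obtain ⟨a1, a2, a3, a4⟩ := h
  obtain ⟨⟨⟨b1, b2⟩, b3, -⟩, -⟩ := h'
  by_cases hA1 : Active d H (q' - 1) R
  · exact e1 (right_anti hd (by omega) (by omega) (b3 ⟨by omega, hA1⟩) e3 (Disj_sq hd e4))
  · have hR : q' - 1 ≤ R := by
      rcases hA with h | h
      · omega
      · omega
    have h1 : top d (q' - 1) ≤ R := by
      by_contra hc
      push Not at hc
      exact hA1 (Or.inl ⟨by omega, hR, hc⟩)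
    have h2 : top d q ≤ top d (q' - 1) := top_mono hd (by omega) (by omega)
    have h4 : j / d < d := by
      apply Nat.div_lt_of_lt_mul
      rw [pow_two] at hj
      exact hj
    have h5 : r d q (j / d) ≤ r d q (d - 1) := r_mono hd le_rfl (by omega) (by omega)
    have h6 : q + r d q (j / d) ≤ R := by
      unfold top at h1 h2
      omega
    have h7 : ((q + r d q (j / d) : ℕ) : ℝ) ≤ R := by exact_mod_cast h6
    have h8 : ((q + r d q (j / d) : ℕ) : ℝ) * s d ≤ R * s d :=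
      mul_le_mul_of_nonneg_right h7 (by linarith)
    linarith

/-- two segments in different rows -/
theorem Disj_SS {d H : ℕ} (hd : 100 ≤ d) {q q' R R' : ℕ} (hR : R < R') {z : ℝ × ℝ}
    (h : z ∈ Seg d H q R) (h' : z ∈ Seg d H q' R') : False := by
  obtain ⟨hs, -, -, -⟩ := s_bounds hd
  obtain ⟨⟨⟨b1, b2⟩, -⟩, -⟩ := h
  obtain ⟨⟨⟨c1, c2⟩, -⟩, -⟩ := h'
  have h7 : (R : ℝ) + 1 ≤ R' := by exact_mod_cast hR
  have h8 : ((R : ℝ) + 1) * s d ≤ R' * s d := mul_le_mul_of_nonneg_right h7 (by linarith)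
  linarith

/-- two segments in the same row -/
theorem Disj_SS' {d H : ℕ} (hd : 100 ≤ d) (hH : 6 * d ^ 2 ≤ H) (hH' : H ≤ 30 * d ^ 2)
    {q q' R : ℕ} (hq : q' ≤ d) (hqq : q < q') (hA : Active d H q R) (hA' : Active d H q' R)
    {z : ℝ × ℝ} (h : z ∈ Seg d H q R) (h' : z ∈ Seg d H q' R) : False := by
  obtain ⟨f1, f2, f3, f4⟩ := seg_left hd hH hH' (by omega) hA h
  obtain ⟨⟨-, b3, -⟩, -⟩ := h'
  have h2 : top d q ≤ top d (q' - 1) := top_mono hd (by omega) (by omega)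
  have hA1 : Active d H (q' - 1) R := by
    refine Or.inl ⟨by omega, ?_, ?_⟩
    · rcases hA' with h | h
      · omega
      · omega
    · rcases hA with h | h
      · omega
      · omega
  exact f1 (by omega) (right_anti hd (by omega) (by omega) (b3 ⟨by omega, hA1⟩) f3 f4)

theorem Disj_mem {d H : ℕ} {a : ℕ × ℕ × ℕ} (ha : a ∈ idx d H) :
    (∃ q j, a = (0, q, j) ∧ q < d ∧ j < d ^ 2) ∨
      (∃ q R, a = (1, q, R) ∧ q ≤ d ∧ Active d H q R) := by
  classical
  obtain ⟨a0, q, j⟩ := a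
  simp only [idx, Finset.mem_union, Finset.mem_product, Finset.mem_filter, Finset.mem_singleton,
    Finset.mem_range] at ha
  rcases ha with ⟨h1, h2, h3⟩ | ⟨⟨h1, h2, h3⟩, h4⟩
  · subst h1
    exact Or.inl ⟨q, j, rfl, h2, h3⟩
  · subst h1
    exact Or.inr ⟨q, j, rfl, by omega, h4⟩

theorem cell_disj {d H : ℕ} (hd : 100 ≤ d) (hH : 6 * d ^ 2 ≤ H) (hH' : H ≤ 30 * d ^ 2) :
    ∀ a ∈ idx d H, ∀ b ∈ idx d H, a ≠ b → Disjoint (Cell d H a) (Cell d H b) := by
  intro a ha b hb hab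
  rw [Set.disjoint_left]
  intro z hza hzb
  rcases Disj_mem ha with ⟨q, j, rfl, hq, hj⟩ | ⟨q, R, rfl, hq, hA⟩
  · rcases Disj_mem hb with ⟨q', j', rfl, hq', hj'⟩ | ⟨q', R', rfl, hq', hA'⟩
    · have h1 : z ∈ LC d q j := hza
      have h2 : z ∈ LC d q' j' := hzb
      rcases lt_trichotomy q q' with h | h | h
      · exact Disj_LL' hd hq' hj hj' h h1 h2
      · subst h
        refine Disj_LL hd hq (fun h => hab ?_) h1 h2
        rw [h]
      · exact Disj_LL' hd hq hj' hj h h2 h1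
    · have h1 : z ∈ LC d q j := hza
      have h2 : z ∈ Seg d H q' R' := hzb
      rcases lt_trichotomy q q' with h | h | h
      · exact Disj_LS2 hd hq' hj h hA' h1 h2
      · subst h
        exact Disj_LS hd hq hj hA' h1 h2
      · exact Disj_LS1 hd hH hH' hq hj h hA' h1 h2
  · rcases Disj_mem hb with ⟨q', j', rfl, hq', hj'⟩ | ⟨q', R', rfl, hq', hA'⟩
    · have h1 : z ∈ Seg d H q R := hza
      have h2 : z ∈ LC d q' j' := hzb
      rcases lt_trichotomy q' q with h | h | h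
      · exact Disj_LS2 hd hq hj' h hA h2 h1
      · subst h
        exact Disj_LS hd hq' hj' hA h2 h1
      · exact Disj_LS1 hd hH hH' hq' hj' h hA h2 h1
    · have h1 : z ∈ Seg d H q R := hza
      have h2 : z ∈ Seg d H q' R' := hzb
      rcases lt_trichotomy R R' with h | h | h
      · exact Disj_SS hd h h1 h2
      · subst h
        rcases lt_trichotomy q q' with h | h | h
        · exact Disj_SS' hd hH hH' hq' h hA hA' h1 h2
        · exact hab (by rw [h])
        · exact Disj_SS' hd hH hH' hq h hA' hA h2 h1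
      · exact Disj_SS hd h h2 h1

end H282R4.PU
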