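import Pool.Agent.H282R4.PU.Par
import Pool.Agent.H282R4.PU.Par2

namespace H282R4.PU

open MeasureTheory
open H282R3.SQ (USq)

/-- area of a box -/
theorem ExVol_box (a b c e : ℝ) :
    volume (Set.Icc a b ×ˢ Set.Icc c e : Set (ℝ × ℝ)) =
      ENNReal.ofReal (b - a) * ENNReal.ofReal (e - c) := by
  rw [Measure.volume_eq_prod, Measure.prod_prod, Real.volume_Icc, Real.volume_Icc]

theorem ExVol_sub {d : ℕ} (hd : 100 ≤ d) : Ex d ⊆
    (Set.Icc (B d d - gam d) (Z d) ×ˢ Set.Icc (0 : ℝ) 4 : Set (ℝ × ℝ)) ∪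
      ⋃ q ∈ Finset.range d,
        (Set.Icc (B d q - gam d) (B d q + 4 * d) ×ˢ Set.Icc (0 : ℝ) (4 / d) : Set (ℝ × ℝ)) := by
  obtain ⟨ht0, ht1, ht2⟩ := t_bounds hd
  obtain ⟨hs0, hs1, -, -⟩ := s_bounds hd
  have hd' : (100 : ℝ) ≤ d := by exact_mod_cast hd
  have hd0 : (0 : ℝ) < d := by linarith
  have hdd : (10000 : ℝ) ≤ (d : ℝ) ^ 2 := by nlinarith
  have hd1 : 1 / (d : ℝ) ≤ 1 / 100 := one_div_le_one_div_of_le (by norm_num) hd'
  have hd2 : 1 / (d : ℝ) ^ 2 ≤ 1 / 10000 := one_div_le_one_div_of_le (by norm_num) hdd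
  have hgam : gam d = 8 * (1 / d) := by unfold gam; ring
  have hgam0 : 0 < gam d := by unfold gam; positivity
  have htt : t d ≤ 1 / 10000 := ht1.trans hd2
  have hinv : (0 : ℝ) < 1 / d := by positivity
  rintro ⟨z1, z2⟩ ⟨h1, h2, h3, h4⟩
  simp only at h1 h2 h3 h4
  rcases h4 with ⟨h5, h6⟩ | ⟨q, hq1, hqd, h5, h6⟩
  · left
    refine ⟨⟨h6, h2.le⟩, ⟨h3, ?_⟩⟩
    obtain ⟨hc0, hc1⟩ := cc_bounds hd (le_refl d)
    unfold cc at hc0 hc1
    have h7 : t d * (B d d - gam d) ≤ t d * z1 := mul_le_mul_of_nonneg_left h6 ht0.le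
    have h8 : t d * gam d ≤ 1 / 100 := by
      rw [hgam]
      nlinarith
    have h9 : s d ≤ 1 + 1 / 100 := by nlinarith
    have h10 : 3 / (d : ℝ) = 3 * (1 / d) := by ring
    show z2 ≤ 4
    nlinarith
  · right
    simp only [Set.mem_iUnion, Finset.mem_range]
    refine ⟨q, hqd, ⟨⟨h6, ?_⟩, ⟨h3, ?_⟩⟩⟩
    · obtain ⟨hc0, hc1⟩ := cc_bounds hd hqd.le
      unfold cc at hc0 hc1
      show z1 ≤ B d q + 4 * d
      by_contra hcon
      push Not at hcon
      have h7 : t d * (B d q + 4 * d) < t d * z1 := mul_lt_mul_of_pos_left hcon ht0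
      have h8 : t d * (4 * d) < 3 / d := by nlinarith
      have h9 : 3 / (d : ℝ) ≤ t d * (4 * d) := by
        rw [div_le_iff₀ hd0]
        nlinarith
      linarith
    · obtain ⟨hc0, hc1⟩ := cc_bounds hd hqd.le
      unfold cc at hc0 hc1
      show z2 ≤ 4 / d
      have h7 : t d * (B d q - gam d) ≤ t d * z1 := mul_le_mul_of_nonneg_left h6 ht0.le
      have h8 : t d * gam d ≤ 1 / d := by
        rw [hgam]
        nlinarith
      have h10 : 3 / (d : ℝ) = 3 * (1 / d) := by ring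
      have h11 : 4 / (d : ℝ) = 4 * (1 / d) := by ring
      rw [h11]
      rw [h10] at hc1
      nlinarith

theorem Ex_volume {d : ℕ} (hd : 100 ≤ d) : volume (Ex d) ≤ ENNReal.ofReal (40 * (d : ℝ) ^ 2) := by
  have hd' : (100 : ℝ) ≤ d := by exact_mod_cast hd
  have hd0 : (0 : ℝ) < d := by linarith
  have hdd : (10000 : ℝ) ≤ (d : ℝ) ^ 2 := by nlinarith
  have hd1 : 1 / (d : ℝ) ≤ 1 / 100 := one_div_le_one_div_of_le (by norm_num) hd'
  have hgam : gam d = 8 * (1 / d) := by unfold gam; ring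
  have hgam1 : gam d ≤ 1 := by rw [hgam]; linarith
  have hgam0 : 0 < gam d := by unfold gam; positivity
  obtain ⟨hZ1, hZ2, -, -, -⟩ := Z_bounds hd
  have hA : volume (Set.Icc (B d d - gam d) (Z d) ×ˢ Set.Icc (0 : ℝ) 4 : Set (ℝ × ℝ)) ≤
      ENNReal.ofReal (17 * (d : ℝ) ^ 2) := by
    rw [ExVol_box, ← ENNReal.ofReal_mul (by nlinarith)]
    apply ENNReal.ofReal_le_ofReal
    nlinarith
  have hB : ∀ q ∈ Finset.range d, volume (Set.Icc (B d q - gam d) (B d q + 4 * d) ×ˢ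
      Set.Icc (0 : ℝ) (4 / d) : Set (ℝ × ℝ)) ≤ ENNReal.ofReal 20 := by
    intro q _
    rw [ExVol_box, ← ENNReal.ofReal_mul (by nlinarith)]
    apply ENNReal.ofReal_le_ofReal
    have h1 : B d q + 4 * d - (B d q - gam d) = 4 * d + gam d := by ring
    have h2 : (4 : ℝ) / d - 0 = 4 * (1 / d) := by ring
    rw [h1, h2]
    have h3 : (d : ℝ) * (1 / d) = 1 := by field_simp
    have h4 : (0 : ℝ) < 1 / d := by positivity
    nlinarith
  refine (measure_mono (ExVol_sub hd)).trans ((measure_union_le _ _).trans ?_)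
  have hC := (measure_biUnion_finset_le (μ := (volume : Measure (ℝ × ℝ))) (Finset.range d)
    (fun q => (Set.Icc (B d q - gam d) (B d q + 4 * d) ×ˢ Set.Icc (0 : ℝ) (4 / d) :
      Set (ℝ × ℝ)))).trans (Finset.sum_le_sum hB)
  have hD : ∑ _q ∈ Finset.range d, ENNReal.ofReal 20 = ENNReal.ofReal (d * 20) := by
    rw [← ENNReal.ofReal_sum_of_nonneg (fun _ _ => by norm_num)]
    simp
  rw [hD] at hC
  calc _ ≤ ENNReal.ofReal (17 * (d : ℝ) ^ 2) + ENNReal.ofReal (d * 20) := add_le_add hA hC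
    _ = ENNReal.ofReal (17 * (d : ℝ) ^ 2 + d * 20) := by
        rw [ENNReal.ofReal_add (by positivity) (by positivity)]
    _ ≤ _ := by
        apply ENNReal.ofReal_le_ofReal
        nlinarith

end H282R4.PU
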