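import Pool.Agent.H282R4.PU.Defs
import Pool.Agent.H282R3.SQ.Contact

/-!
Module Frame: basic operations with packings of small waste.
-/

namespace H282R4.PU

open MeasureTheory
open H282R3.SQ (USq)

theorem Wle_mono {Ω : Set (ℝ × ℝ)} {w w' : ℝ} (h : Wle Ω w) (hw : w ≤ w') : Wle Ω w' := by
  obtain ⟨h0, n, hn, hv⟩ := h
  exact ⟨h0.trans hw, n, hn, hv.trans (ENNReal.ofReal_le_ofReal (by linarith))⟩

theorem frame_fits_fintype {κ : Type*} [Fintype κ] (Ω : Set (ℝ × ℝ)) (Q : κ → USq)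
    (h1 : ∀ i, (Q i).O ⊆ Ω) (h2 : ∀ i j, i ≠ j → Disjoint (Q i).O (Q j).O) :
    Fits Ω (Fintype.card κ) := by
  classical
  refine ⟨fun i => Q ((Fintype.equivFin κ).symm i), fun i => h1 _, fun i j hij => h2 _ _ ?_⟩
  intro h
  exact hij ((Fintype.equivFin κ).symm.injective h)

theorem Wle_union {ι : Type*} (S : Finset ι) (Ω E : Set (ℝ × ℝ)) (C : ι → Set (ℝ × ℝ)) (w : ι → ℝ)
    (e : ℝ) (he : 0 ≤ e) (hsub : ∀ i ∈ S, C i ⊆ Ω)
    (hdis : ∀ i ∈ S, ∀ j ∈ S, i ≠ j → Disjoint (interior (C i)) (interior (C j)))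
    (hcov : Ω ⊆ (⋃ i ∈ S, C i) ∪ E) (hE : volume E ≤ ENNReal.ofReal e)
    (hw : ∀ i ∈ S, Wle (C i) (w i)) : Wle Ω (∑ i ∈ S, w i + e) := by
  classical
  have hw0 : ∀ i ∈ S, 0 ≤ w i := fun i hi => (hw i hi).1
  refine ⟨add_nonneg (Finset.sum_nonneg hw0) he, ?_⟩
  have hex : ∀ i : S, ∃ n : ℕ, Fits (C i) n ∧ volume (C i) ≤ ENNReal.ofReal (n + w i) :=
    fun i => (hw i.1 i.2).2
  choose n hn hv using hex
  choose Q hQ1 hQ2 using hn
  have hfit := frame_fits_fintype (κ := Σ i : S, Fin (n i)) Ω (fun p => Q p.1 p.2)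
    (fun p => (hQ1 p.1 p.2).trans (hsub p.1.1 p.1.2)) (by
      rintro ⟨i, a⟩ ⟨j, b⟩ hij
      by_cases h : i = j
      · subst h
        refine hQ2 i a b ?_
        rintro rfl
        exact hij rfl
      · have h' : (i : ι) ≠ j := fun h'' => h (Subtype.ext h'')
        have hd := hdis i i.2 j j.2 h'
        have e1 : (Q i a).O ⊆ interior (C i) :=
          interior_maximal (hQ1 i a) (H282R3.SQ.isOpen_O _)
        have e2 : (Q j b).O ⊆ interior (C j) :=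
          interior_maximal (hQ1 j b) (H282R3.SQ.isOpen_O _)
        exact hd.mono e1 e2)
  rw [Fintype.card_sigma] at hfit
  simp only [Fintype.card_fin] at hfit
  refine ⟨∑ i : S, n i, hfit, ?_⟩
  calc volume Ω ≤ volume ((⋃ i ∈ S, C i) ∪ E) := measure_mono hcov
    _ ≤ volume (⋃ i ∈ S, C i) + volume E := measure_union_le _ _
    _ ≤ (∑ i ∈ S, volume (C i)) + ENNReal.ofReal e :=
        add_le_add (measure_biUnion_finset_le _ _) hE
    _ = (∑ i : S, volume (C i)) + ENNReal.ofReal e := by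
        rw [Finset.sum_coe_sort S (fun i => volume (C i))]
    _ ≤ (∑ i : S, ENNReal.ofReal (n i + w i)) + ENNReal.ofReal e :=
        add_le_add (Finset.sum_le_sum fun i _ => hv i) le_rfl
    _ = ENNReal.ofReal ((∑ i : S, ((n i : ℝ) + w i)) + e) := by
        have hnn : ∀ i : S, 0 ≤ (n i : ℝ) + w i := fun i =>
          add_nonneg (Nat.cast_nonneg _) (hw0 i.1 i.2)
        rw [ENNReal.ofReal_add (Finset.sum_nonneg fun i _ => hnn i) he,
          ENNReal.ofReal_sum_of_nonneg fun i _ => hnn i]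
    _ = ENNReal.ofReal (((∑ i : S, n i : ℕ) : ℝ) + (∑ i ∈ S, w i + e)) := by
        congr 1
        rw [Finset.sum_add_distrib, Finset.sum_coe_sort S w]
        push_cast
        ring

theorem Wle_translate {Ω : Set (ℝ × ℝ)} {w : ℝ} (h : Wle Ω w) (v : ℝ × ℝ) :
    Wle {z | (z.1 - v.1, z.2 - v.2) ∈ Ω} w := by
  obtain ⟨h0, n, ⟨Q, hQ1, hQ2⟩, hv⟩ := h
  let Q' : Fin n → USq := fun i => ⟨(Q i).p + v.1, (Q i).q + v.2, (Q i).a, (Q i).b, (Q i).unit⟩
  have hO : ∀ i (z : ℝ × ℝ), z ∈ (Q' i).O ↔ (z.1 - v.1, z.2 - v.2) ∈ (Q i).O := by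
    intro i z
    have e1 : (Q' i).X z = (Q i).X (z.1 - v.1, z.2 - v.2) := by
      simp only [USq.X, Q']; ring
    have e2 : (Q' i).Y z = (Q i).Y (z.1 - v.1, z.2 - v.2) := by
      simp only [USq.Y, Q']; ring
    simp only [USq.O, Set.mem_ofPred_eq, e1, e2]
  refine ⟨h0, n, ⟨Q', ?_, ?_⟩, ?_⟩
  · intro i z hz
    exact hQ1 i ((hO i z).mp hz)
  · intro i j hij
    rw [Set.disjoint_left]
    intro z hz hz'
    exact Set.disjoint_left.mp (hQ2 i j hij) ((hO i z).mp hz) ((hO j z).mp hz')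
  · have : {z : ℝ × ℝ | (z.1 - v.1, z.2 - v.2) ∈ Ω} = (fun z => z + (-v)) ⁻¹' Ω := by
      ext z
      simp only [Set.mem_ofPred_eq, Set.mem_preimage]
      have : (z.1 - v.1, z.2 - v.2) = z + -v := by
        ext <;> simp [sub_eq_add_neg]
      rw [this]
    rw [this, measure_preimage_add_right]
    exact hv

theorem Wle_rot {Ω : Set (ℝ × ℝ)} {w : ℝ} (h : Wle Ω w) (v : ℝ × ℝ) :
    Wle {z | (v.1 - z.1, v.2 - z.2) ∈ Ω} w := by
  obtain ⟨h0, n, ⟨Q, hQ1, hQ2⟩, hv⟩ := h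
  let Q' : Fin n → USq := fun i => ⟨v.1 - (Q i).p, v.2 - (Q i).q, (Q i).a, (Q i).b, (Q i).unit⟩
  have hO : ∀ i (z : ℝ × ℝ), z ∈ (Q' i).O ↔ (v.1 - z.1, v.2 - z.2) ∈ (Q i).O := by
    intro i z
    have e1 : (Q' i).X z = - (Q i).X (v.1 - z.1, v.2 - z.2) := by
      simp only [USq.X, Q']; ring
    have e2 : (Q' i).Y z = - (Q i).Y (v.1 - z.1, v.2 - z.2) := by
      simp only [USq.Y, Q']; ring
    simp only [USq.O, Set.mem_ofPred_eq, e1, e2, abs_neg]
  refine ⟨h0, n, ⟨Q', ?_, ?_⟩, ?_⟩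
  · intro i z hz
    exact hQ1 i ((hO i z).mp hz)
  · intro i j hij
    rw [Set.disjoint_left]
    intro z hz hz'
    exact Set.disjoint_left.mp (hQ2 i j hij) ((hO i z).mp hz) ((hO j z).mp hz')
  · have : {z : ℝ × ℝ | (v.1 - z.1, v.2 - z.2) ∈ Ω} =
        Neg.neg ⁻¹' ((fun z : ℝ × ℝ => z + v) ⁻¹' Ω) := by
      ext z
      simp only [Set.mem_ofPred_eq, Set.mem_preimage]
      have : (v.1 - z.1, v.2 - z.2) = -z + v := by
        ext <;> simp [sub_eq_add_neg, add_comm]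
      rw [this]
    rw [this, Measure.measure_preimage_neg, measure_preimage_add_right]
    exact hv

theorem Wle_swap {Ω : Set (ℝ × ℝ)} {w : ℝ} (h : Wle Ω w) :
    Wle {z | (z.2, z.1) ∈ Ω} w := by
  obtain ⟨h0, n, ⟨Q, hQ1, hQ2⟩, hv⟩ := h
  let Q' : Fin n → USq := fun i => ⟨(Q i).q, (Q i).p, (Q i).b, (Q i).a, by
    have := (Q i).unit; linarith⟩
  have hO : ∀ i (z : ℝ × ℝ), z ∈ (Q' i).O ↔ (z.2, z.1) ∈ (Q i).O := by
    intro i z
    have e1 : (Q' i).X z = (Q i).X (z.2, z.1) := by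
      simp only [USq.X, Q']; ring
    have e2 : (Q' i).Y z = - (Q i).Y (z.2, z.1) := by
      simp only [USq.Y, Q']; ring
    simp only [USq.O, Set.mem_ofPred_eq, e1, e2, abs_neg]
  refine ⟨h0, n, ⟨Q', ?_, ?_⟩, ?_⟩
  · intro i z hz
    exact hQ1 i ((hO i z).mp hz)
  · intro i j hij
    rw [Set.disjoint_left]
    intro z hz hz'
    exact Set.disjoint_left.mp (hQ2 i j hij) ((hO i z).mp hz) ((hO j z).mp hz')
  · have hmp : MeasurePreserving (MeasurableEquiv.prodComm : ℝ × ℝ ≃ᵐ ℝ × ℝ) volume volume := by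
      rw [Measure.volume_eq_prod]
      exact Measure.measurePreserving_swap
    have : {z : ℝ × ℝ | (z.2, z.1) ∈ Ω} = (MeasurableEquiv.prodComm : ℝ × ℝ ≃ᵐ ℝ × ℝ) ⁻¹' Ω := rfl
    rw [this, hmp.measure_preimage_equiv]
    exact hv

end H282R4.PU
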