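import Pool.Agent.H282R4.PU.Defs
import Pool.Agent.H282R3.SQ.Contact
import Pool.Agent.H282R3.SQ.Area

/-!
Module RectW: a rotated rectangle of width one is packed greedily.
-/

namespace H282R4.PU

open MeasureTheory
open H282R3.SQ (USq)

theorem rectw_vol (a b p u' v' : ℝ) (hab : a ^ 2 + b ^ 2 = 1) :
    volume {z : ℝ × ℝ | p ≤ ax a b z ∧ ax a b z ≤ p + 1 ∧ u' ≤ al a b z ∧ al a b z ≤ v'} =
      ENNReal.ofReal (v' - u') := by
  set L := H282R3.SQ.linM a b (-b) a with hL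
  have hdet : LinearMap.det L = 1 := by
    rw [hL, H282R3.SQ.linM_det]; linarith
  have hC : {z : ℝ × ℝ | p ≤ ax a b z ∧ ax a b z ≤ p + 1 ∧ u' ≤ al a b z ∧ al a b z ≤ v'} =
      L ⁻¹' (Set.Icc p (p + 1) ×ˢ Set.Icc u' v') := by
    ext z
    simp only [Set.mem_ofPred_eq, Set.mem_preimage, Set.mem_prod, Set.mem_Icc, hL,
      H282R3.SQ.linM_apply, ax, al]
    tauto
  rw [hC, Measure.addHaar_preimage_linearMap volume (by rw [hdet]; exact one_ne_zero), hdet,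
    Measure.volume_eq_prod, Measure.prod_prod, Real.volume_Icc, Real.volume_Icc]
  norm_num

theorem rect_wle (a b p u v u' v' w : ℝ) (n : ℕ) (Ω : Set (ℝ × ℝ)) (hab : a ^ 2 + b ^ 2 = 1)
    (hin : ∀ z, p < ax a b z → ax a b z < p + 1 → u < al a b z → al a b z < v → z ∈ Ω)
    (hout : ∀ z ∈ Ω, p ≤ ax a b z ∧ ax a b z ≤ p + 1 ∧ u' ≤ al a b z ∧ al a b z ≤ v')
    (h1 : u + n ≤ v) (h2 : v' - u' ≤ n + w) (hw : 0 ≤ w) : Wle Ω w := by
  let Q : Fin n → USq := fun i =>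
    ⟨a * (p + 1 / 2) - b * (u + i + 1 / 2), b * (p + 1 / 2) + a * (u + i + 1 / 2), a, b, hab⟩
  have hX : ∀ (i : Fin n) (z : ℝ × ℝ), (Q i).X z = ax a b z - (p + 1 / 2) := by
    intro i z
    simp only [USq.X, Q, ax]
    linear_combination (-(p + 1 / 2)) * hab
  have hY : ∀ (i : Fin n) (z : ℝ × ℝ), (Q i).Y z = al a b z - (u + i + 1 / 2) := by
    intro i z
    simp only [USq.Y, Q, al]
    linear_combination (-(u + i + 1 / 2)) * hab
  have hO : ∀ (i : Fin n) (z : ℝ × ℝ), z ∈ (Q i).O ↔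
      (p < ax a b z ∧ ax a b z < p + 1) ∧ (u + i < al a b z ∧ al a b z < u + i + 1) := by
    intro i z
    simp only [USq.O, Set.mem_ofPred_eq, hX, hY, abs_lt]
    constructor
    · rintro ⟨⟨h1, h2⟩, h3, h4⟩
      refine ⟨⟨?_, ?_⟩, ?_, ?_⟩ <;> linarith
    · rintro ⟨⟨h1, h2⟩, h3, h4⟩
      refine ⟨⟨?_, ?_⟩, ?_, ?_⟩ <;> linarith
  refine ⟨hw, n, ⟨Q, ?_, ?_⟩, ?_⟩
  · intro i z hz
    obtain ⟨⟨h3, h4⟩, h5, h6⟩ := (hO i z).mp hz
    have hi : ((i : ℕ) : ℝ) + 1 ≤ n := by exact_mod_cast i.2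
    have hi0 : (0 : ℝ) ≤ ((i : ℕ) : ℝ) := Nat.cast_nonneg _
    exact hin z h3 h4 (by linarith) (by linarith)
  · intro i j hij
    rw [Set.disjoint_left]
    intro z hz hz'
    obtain ⟨_, h5, h6⟩ := (hO i z).mp hz
    obtain ⟨_, h7, h8⟩ := (hO j z).mp hz'
    have h9 : ((i : ℕ) : ℝ) < ((j : ℕ) : ℝ) + 1 := by linarith
    have h10 : ((j : ℕ) : ℝ) < ((i : ℕ) : ℝ) + 1 := by linarith
    have h11 : (i : ℕ) < (j : ℕ) + 1 := by exact_mod_cast h9
    have h12 : (j : ℕ) < (i : ℕ) + 1 := by exact_mod_cast h10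
    exact hij (Fin.ext (by omega))
  · calc volume Ω ≤ volume {z : ℝ × ℝ | p ≤ ax a b z ∧ ax a b z ≤ p + 1 ∧ u' ≤ al a b z ∧
          al a b z ≤ v'} := measure_mono hout
      _ = ENNReal.ofReal (v' - u') := rectw_vol a b p u' v' hab
      _ ≤ ENNReal.ofReal (n + w) := ENNReal.ofReal_le_ofReal h2

theorem strip_wle3 (a b p f0 f1 g0 g1 : ℝ) (Ω : Set (ℝ × ℝ)) (hab : a ^ 2 + b ^ 2 = 1)
    (hf : |f1| ≤ 1) (hg : |g1| ≤ 1)
    (hin : ∀ z, p < ax a b z → ax a b z < p + 1 → f0 + f1 * (ax a b z - p) < al a b z →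
      al a b z < g0 + g1 * (ax a b z - p) → z ∈ Ω)
    (hout : ∀ z ∈ Ω, p ≤ ax a b z ∧ ax a b z ≤ p + 1 ∧ f0 + f1 * (ax a b z - p) ≤ al a b z ∧
      al a b z ≤ g0 + g1 * (ax a b z - p)) : Wle Ω 3 := by
  have key : ∀ c0 c1 s : ℝ, 0 ≤ s → s ≤ 1 → min c0 (c0 + c1) ≤ c0 + c1 * s ∧
      c0 + c1 * s ≤ max c0 (c0 + c1) := by
    intro c0 c1 s hs0 hs1
    rcases le_total 0 c1 with h | h
    · rw [min_eq_left (by linarith), max_eq_right (by linarith)]
      constructor <;> nlinarith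
    · rw [min_eq_right (by linarith), max_eq_left (by linarith)]
      constructor <;> nlinarith
  obtain ⟨hf1, hf2⟩ := abs_le.mp hf
  obtain ⟨hg1, hg2⟩ := abs_le.mp hg
  set v := min g0 (g0 + g1) with hv
  set u := max f0 (f0 + f1) with hu
  set u' := min f0 (f0 + f1) with hu'
  set v' := max g0 (g0 + g1) with hv'
  have huu : u ≤ u' + 1 := by
    rw [hu, hu']
    rcases le_total 0 f1 with h | h
    · rw [min_eq_left (by linarith), max_eq_right (by linarith)]; linarith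
    · rw [min_eq_right (by linarith), max_eq_left (by linarith)]; linarith
  have hvv : v' ≤ v + 1 := by
    rw [hv, hv']
    rcases le_total 0 g1 with h | h
    · rw [min_eq_left (by linarith), max_eq_right (by linarith)]; linarith
    · rw [min_eq_right (by linarith), max_eq_left (by linarith)]; linarith
  have hout' : ∀ z ∈ Ω, p ≤ ax a b z ∧ ax a b z ≤ p + 1 ∧ u' ≤ al a b z ∧ al a b z ≤ v' := by
    intro z hz
    obtain ⟨h1, h2, h3, h4⟩ := hout z hz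
    refine ⟨h1, h2, ?_, ?_⟩
    · exact ((key f0 f1 (ax a b z - p) (by linarith) (by linarith)).1).trans h3
    · exact h4.trans ((key g0 g1 (ax a b z - p) (by linarith) (by linarith)).2)
  rcases le_or_gt u v with huv | huv
  · have hn1 : ((⌊v - u⌋₊ : ℕ) : ℝ) ≤ v - u := Nat.floor_le (by linarith)
    have hn2 : v - u < ((⌊v - u⌋₊ : ℕ) : ℝ) + 1 := Nat.lt_floor_add_one _
    refine rect_wle a b p u v u' v' 3 ⌊v - u⌋₊ Ω hab ?_ hout' (by linarith) (by linarith)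
      (by norm_num)
    intro z h1 h2 h3 h4
    refine hin z h1 h2 ?_ ?_
    · exact lt_of_le_of_lt ((key f0 f1 (ax a b z - p) (by linarith) (by linarith)).2) h3
    · exact lt_of_lt_of_le h4 ((key g0 g1 (ax a b z - p) (by linarith) (by linarith)).1)
  · refine rect_wle a b p u u u' v' 3 0 Ω hab ?_ hout' (by simp) (by push_cast; linarith)
      (by norm_num)
    intro z h1 h2 h3 h4
    linarith

end H282R4.PU
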