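import Pool.Agent.H282R4.PU.Par
import Pool.Agent.H282R4.PU.Par2
import Pool.Agent.H282R4.PU.RectW

namespace H282R4.PU

open MeasureTheory
open H282R3.SQ (USq)

/-- lower inequality -/
theorem LCW_low {D T K τ E C A i j n : ℝ} (hD : 100 ≤ D) (hT0 : 0 < T) (hT : T ≤ 1 / D)
    (hK0 : 0 < K) (hK : K ^ 2 = 1 + T ^ 2) (hτ : 0 < τ) (hC : 0 ≤ C) (hj0 : 0 ≤ j) (hi0 : 0 ≤ i)
    (hj : j ≤ (i + 1) * D)
    (hA : A = 1 / D + (1 + 1 / D ^ 2) * τ * (i + 1) * D) (hn : A ≤ n * E) :
    (1 + τ * T) * (T + n) ≤ (1 + τ * T) * (n * (1 + E)) + K * (C - τ * j * K) := by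
  have hD0 : 0 < D := by linarith
  have hKsq : K ^ 2 ≤ 1 + 1 / D ^ 2 := by
    rw [hK]
    have : T ^ 2 ≤ (1 / D) ^ 2 := pow_le_pow_left₀ hT0.le hT 2
    rw [div_pow, one_pow] at this
    linarith
  have h4 : τ * j * K ^ 2 ≤ τ * ((i + 1) * D) * (1 + 1 / D ^ 2) := by
    have h5 : τ * j ≤ τ * ((i + 1) * D) := mul_le_mul_of_nonneg_left hj hτ.le
    exact mul_le_mul h5 hKsq (by positivity) (by positivity)
  have h6 : T + τ * ((i + 1) * D) * (1 + 1 / D ^ 2) ≤ A := by
    rw [hA]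
    have : τ * ((i + 1) * D) * (1 + 1 / D ^ 2) = (1 + 1 / D ^ 2) * τ * (i + 1) * D := by ring
    rw [this]; linarith
  have h7 : T + τ * j * K ^ 2 ≤ n * E := by linarith
  have h8 : 0 ≤ τ * j * K ^ 2 := by positivity
  have h11 : 0 ≤ τ * T := by positivity
  have h9 : (1 + τ * T) * (T + τ * j * K ^ 2) ≤ (1 + τ * T) * (n * E) :=
    mul_le_mul_of_nonneg_left h7 (by linarith)
  have h10 : 0 ≤ τ * T * (τ * j * K ^ 2) := by positivity
  have h12 : 0 ≤ K * C := by positivity
  have e1 : (1 + τ * T) * (n * (1 + E)) + K * (C - τ * j * K) - (1 + τ * T) * (T + n) =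
    ((1 + τ * T) * (n * E) - (1 + τ * T) * (T + τ * j * K ^ 2)) +
      (τ * T * (τ * j * K ^ 2)) + K * C := by ring
  have : 0 ≤ (1 + τ * T) * (n * (1 + E)) + K * (C - τ * j * K) - (1 + τ * T) * (T + n) := by
    rw [e1]; linarith
  linarith

/-- upper inequality -/
theorem LCW_up {D T K τ E C A P i j n : ℝ} (hD : 100 ≤ D) (hT0 : 0 < T) (hT : T ≤ 1 / D)
    (hK0 : 0 < K) (hK : K ^ 2 = 1 + T ^ 2) (hK2 : K ≤ 1 + 1 / (2 * D ^ 2))
    (hτ : 0 < τ) (hτ1 : τ ≤ 1 / D ^ 2) (hτT : τ ≤ T) (hC : 0 ≤ C) (hC2 : C ≤ 3 / D)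
    (hj0 : 0 ≤ j) (hi0 : 0 ≤ i) (hj : i * D ≤ j) (hiD : i + 1 ≤ D)
    (hA : A = 1 / D + (1 + 1 / D ^ 2) * τ * (i + 1) * D) (hn : n * E ≤ A + E)
    (hE : E ≤ 1 / (2 * D ^ 2)) (hP : P ≤ T) :
    (1 + τ * T) * (n * (1 + E)) + K * (C - τ * j * K) + (1 + τ * T) * P ≤
      (1 + τ * T) * (n + 10 / D) := by
  have hD0 : 0 < D := by linarith
  have hDp : 0 < 1 + τ * T := by positivity
  have hK3 : 1 + τ * T ≤ K ^ 2 := by
    rw [hK]
    have := mul_le_mul_of_nonneg_right hτT hT0.le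
    linarith [sq T]
  have h3 : (1 + τ * T) * (τ * (i * D)) ≤ K ^ 2 * (τ * j) := by
    have : τ * (i * D) ≤ τ * j := mul_le_mul_of_nonneg_left hj hτ.le
    exact mul_le_mul hK3 this (by positivity) (by positivity)
  have h4 : K * C ≤ (1 + τ * T) * (4 / D) := by
    have h5 : K * C ≤ (1 + 1 / (2 * D ^ 2)) * (3 / D) := mul_le_mul hK2 hC2 hC (by positivity)
    have h6 : (1 + 1 / (2 * D ^ 2)) * (3 / D) ≤ 4 / D := by
      rw [div_eq_mul_inv 4, div_eq_mul_inv 3]
      have h7 : 1 / (2 * D ^ 2) ≤ 1 / 3 := by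
        rw [div_le_div_iff₀ (by positivity) (by norm_num)]; nlinarith
      have h8 : 0 < D⁻¹ := by positivity
      nlinarith
    have h7 : 0 ≤ τ * T * (4 / D) := by positivity
    linarith
  have h5 : A - τ * (i * D) ≤ 3 / D := by
    rw [hA]
    have h6 : (1 + 1 / D ^ 2) * τ * (i + 1) * D - τ * (i * D) =
      τ * D + (1 / D ^ 2) * τ * ((i + 1) * D) := by ring
    have h7 : τ * D ≤ 1 / D := by
      have : τ * D ≤ 1 / D ^ 2 * D := mul_le_mul_of_nonneg_right hτ1 hD0.le
      refine le_trans this (le_of_eq ?_)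
      field_simp
    have h8 : (1 / D ^ 2) * τ * ((i + 1) * D) ≤ 1 / D := by
      have h9 : (i + 1) * D ≤ D * D := mul_le_mul_of_nonneg_right hiD hD0.le
      have h10 : (1 / D ^ 2) * τ * ((i + 1) * D) ≤ (1 / D ^ 2) * (1 / D ^ 2) * (D * D) := by
        apply mul_le_mul _ h9 (by positivity) (by positivity)
        exact mul_le_mul_of_nonneg_left hτ1 (by positivity)
      refine le_trans h10 ?_
      have : (1 / D ^ 2) * (1 / D ^ 2) * (D * D) = 1 / D ^ 2 := by
        field_simp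
      rw [this, div_le_div_iff₀ (by positivity) hD0]
      nlinarith
    have h11 : (3 : ℝ) / D = 1 / D + 1 / D + 1 / D := by ring
    rw [h11]; linarith
  have h6 : E ≤ 1 / D := by
    refine le_trans hE ?_
    rw [div_le_div_iff₀ (by positivity) hD0]
    nlinarith
  have h7 : P ≤ 1 / D := le_trans hP hT
  have h8 : n * E - τ * (i * D) + P + 4 / D ≤ 10 / D := by
    have h9 : n * E - τ * (i * D) + P + 4 / D ≤ 3 / D + 1 / D + 1 / D + 4 / D := by linarith
    refine le_trans h9 ?_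
    have : (3 : ℝ) / D + 1 / D + 1 / D + 4 / D = 9 / D := by ring
    rw [this]
    exact div_le_div_of_nonneg_right (by norm_num) hD0.le
  have h9 := mul_le_mul_of_nonneg_left h8 hDp.le
  have e1 : (1 + τ * T) * (n * (1 + E)) + K * (C - τ * j * K) + (1 + τ * T) * P =
    (1 + τ * T) * n + (1 + τ * T) * (n * E - τ * (i * D) + P + 4 / D) +
      ((1 + τ * T) * (τ * (i * D)) - K ^ 2 * (τ * j)) + (K * C - (1 + τ * T) * (4 / D)) := by ring
  have e2 : (1 + τ * T) * (n + 10 / D) = (1 + τ * T) * n + (1 + τ * T) * (10 / D) := by ring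
  rw [e1, e2]
  linarith

/-- the geometric part -/
theorem LCW_geom {T K τ S P B0 j N w : ℝ} {m : ℕ} (hT0 : 0 < T) (hK0 : 0 < K)
    (hK : K ^ 2 = 1 + T ^ 2) (hτ : 0 < τ) (hτT : τ ≤ T) (hP : (1 + τ * T) * P = T - τ)
    (hw : 0 ≤ w)
    (v : ℝ) (hv : (1 + τ * T) * v = K * N * S + (T - τ) * (B0 / K + j))
    (h1 : T * (B0 / K + j + 1) + m ≤ v) (h2 : v + P - T * (B0 / K + j) ≤ m + w) :
    Wle {z | j * K ≤ z.1 - B0 - T * z.2 ∧ z.1 - B0 - T * z.2 < (j + 1) * K ∧ 0 ≤ z.2 ∧
      z.2 + τ * z.1 < N * S} w := by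
  have hD : 0 < 1 + τ * T := by positivity
  have hX : ∀ z : ℝ × ℝ, ax (1 / K) (-T / K) z = (z.1 - T * z.2) / K := by
    intro z; unfold ax; ring
  have hY : ∀ z : ℝ × ℝ, al (1 / K) (-T / K) z = (T * z.1 + z.2) / K := by
    intro z; unfold al; ring
  have hcoord : ∀ z : ℝ × ℝ, z.1 - T * z.2 = K * ax (1 / K) (-T / K) z ∧
      T * z.1 + z.2 = K * al (1 / K) (-T / K) z := by
    intro z
    rw [hX, hY]
    constructor <;> field_simp
  have hcoord2 : ∀ z : ℝ × ℝ, K * z.2 = al (1 / K) (-T / K) z - T * ax (1 / K) (-T / K) z ∧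
      K * z.1 = ax (1 / K) (-T / K) z + T * al (1 / K) (-T / K) z := by
    intro z
    obtain ⟨e1, e2⟩ := hcoord z
    have hKK : K * K = 1 + T ^ 2 := by rw [← hK]; ring
    constructor
    · have : K * (K * z.2) = K * (al (1 / K) (-T / K) z - T * ax (1 / K) (-T / K) z) := by
        linear_combination z.2 * hKK + e2 - T * e1
      exact mul_left_cancel₀ hK0.ne' this
    · have : K * (K * z.1) = K * (ax (1 / K) (-T / K) z + T * al (1 / K) (-T / K) z) := by
        linear_combination z.1 * hKK + e1 + T * e2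
      exact mul_left_cancel₀ hK0.ne' this
  set p : ℝ := B0 / K + j with hp
  have hKp : K * p = B0 + j * K := by rw [hp]; field_simp
  refine rect_wle (1 / K) (-T / K) p (T * (p + 1)) v (T * p) (v + P) w m _ ?_ ?_ ?_ ?_ h2 hw
  · rw [div_pow, div_pow, ← add_div, hK, div_eq_one_iff_eq (by positivity)]; ring
  · intro z h1 h2 h3 h4
    obtain ⟨e1, e2⟩ := hcoord z
    obtain ⟨e3, e4⟩ := hcoord2 z
    generalize ax (1 / K) (-T / K) z = X at *
    generalize al (1 / K) (-T / K) z = Y at *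
    have g1 : K * p < K * X := mul_lt_mul_of_pos_left h1 hK0
    have g2 : K * X < K * (p + 1) := mul_lt_mul_of_pos_left h2 hK0
    refine ⟨by linarith, by linarith, ?_, ?_⟩
    · have g3 : T * X < T * (p + 1) := mul_lt_mul_of_pos_left h2 hT0
      have : 0 < K * z.2 := by rw [e3]; linarith
      exact ((mul_pos_iff_of_pos_left hK0).1 this).le
    · have h5 : (1 + τ * T) * Y < (1 + τ * T) * v := mul_lt_mul_of_pos_left h4 hD
      rw [hv] at h5
      have h6 : (T - τ) * p ≤ (T - τ) * X := mul_le_mul_of_nonneg_left h1.le (by linarith)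
      have h7 : K * (z.2 + τ * z.1) < K * (N * S) := by
        have : K * (z.2 + τ * z.1) = (1 + τ * T) * Y - (T - τ) * X := by
          linear_combination e3 + τ * e4
        rw [this]; linarith
      exact lt_of_mul_lt_mul_left h7 hK0.le
  · rintro z ⟨h1, h2, h3, h4⟩
    obtain ⟨e1, e2⟩ := hcoord z
    obtain ⟨e3, e4⟩ := hcoord2 z
    generalize ax (1 / K) (-T / K) z = X at *
    generalize al (1 / K) (-T / K) z = Y at *
    have g1 : K * p ≤ K * X := by linarith
    have g2 : K * X ≤ K * (p + 1) := by linarith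
    have g1' : p ≤ X := le_of_mul_le_mul_left g1 hK0
    have g2' : X ≤ p + 1 := le_of_mul_le_mul_left g2 hK0
    refine ⟨g1', g2', ?_, ?_⟩
    · have h5 : 0 ≤ K * z.2 := by positivity
      rw [e3] at h5
      have g3 : T * p ≤ T * X := mul_le_mul_of_nonneg_left g1' hT0.le
      linarith
    · have h7 : K * (z.2 + τ * z.1) ≤ K * (N * S) :=
        mul_le_mul_of_nonneg_left h4.le hK0.le
      have h8 : K * (z.2 + τ * z.1) = (1 + τ * T) * Y - (T - τ) * X := by
        linear_combination e3 + τ * e4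
      have h6 : (T - τ) * X ≤ (T - τ) * (p + 1) := mul_le_mul_of_nonneg_left g2' (by linarith)
      have h9 : (1 + τ * T) * Y ≤ (1 + τ * T) * (v + P) := by
        rw [mul_add, hv, hP]; linarith
      exact le_of_mul_le_mul_left h9 hD
  · linarith

theorem LC_wle {d : ℕ} (hd : 100 ≤ d) {q j : ℕ} (hq : q < d) (hj : j < d ^ 2) :
    Wle (LC d q j) (10 / d) := by
  have hdR : (100 : ℝ) ≤ d := by exact_mod_cast hd
  have hd0 : (0 : ℝ) < d := by linarith
  obtain ⟨ht0, ht1, ht2⟩ := t_bounds hd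
  obtain ⟨hta1, hta2⟩ := tau_bounds hd hq.le
  obtain ⟨hk1, hk2, hk3⟩ := kap_bounds hd hq.le
  obtain ⟨hp1, hp2⟩ := phi_bounds hd hq.le
  obtain ⟨-, -, he1, he2⟩ := eps_bounds hd hq.le
  obtain ⟨hc1, hc2⟩ := cc_bounds hd hq.le
  obtain ⟨hr1, hr2⟩ := r_bounds (i := j / d) hd hq.le
  have hepsdef : eps d q = kap d q * s d / (1 + t d * tau d q) - 1 := rfl
  have hphidef : phi d q = (tau d q - t d) / (1 + t d * tau d q) := rfl
  have hccdef : cc d q = q * s d - t d * B d q := rfl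
  have haadef : aa d (j / d) = 1 / d + (1 + 1 / (d : ℝ) ^ 2) * t d * ((j / d : ℕ) + 1) * d := rfl
  have hdN : 0 < d := by omega
  -- integer facts
  have hj1 : (j : ℝ) ≤ ((j / d : ℕ) + 1) * d := by
    have h := Nat.lt_div_mul_add (a := j) hdN
    have h2 : j ≤ (j / d + 1) * d := by nlinarith [h]
    exact_mod_cast h2
  have hj2 : ((j / d : ℕ) : ℝ) * d ≤ j := by exact_mod_cast Nat.div_mul_le_self j d
  have hj3 : ((j / d : ℕ) : ℝ) + 1 ≤ d := by
    have h : j / d < d := Nat.div_lt_of_lt_mul (by nlinarith [hj])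
    exact_mod_cast h
  have hset : LC d q j = {z | j * kap d q ≤ z.1 - B d q - tau d q * z.2 ∧
    z.1 - B d q - tau d q * z.2 < (j + 1) * kap d q ∧ 0 ≤ z.2 ∧
    z.2 + t d * z.1 < (q + r d q (j / d) : ℕ) * s d} := rfl
  rw [hset]
  clear hset
  have hT0 : 0 < tau d q := lt_of_lt_of_le (by positivity) hta1
  have hK0 : 0 < kap d q := by linarith
  have hD : 0 < 1 + t d * tau d q := by positivity
  have htT : t d ≤ tau d q := by
    refine le_trans ht1 (le_trans ?_ hta1)
    rw [div_le_div_iff₀ (by positivity) (by positivity)]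
    nlinarith
  have hden : (1 + t d * tau d q) * phi d q = tau d q - t d := by
    rw [hphidef]; field_simp
  have hden2 : (1 + t d * tau d q) * (eps d q + 1) = kap d q * s d := by
    rw [hepsdef]; field_simp; ring
  have hKp : kap d q * (B d q / kap d q + j) = B d q + j * kap d q := by field_simp
  have hvm : (1 + t d * tau d q) * ((kap d q * ((q + r d q (j / d) : ℕ) : ℝ) * s d +
      (tau d q - t d) * (B d q / kap d q + j)) / (1 + t d * tau d q)) =
      kap d q * ((q + r d q (j / d) : ℕ) : ℝ) * s d +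
      (tau d q - t d) * (B d q / kap d q + j) := by
    field_simp
  generalize (kap d q * ((q + r d q (j / d) : ℕ) : ℝ) * s d +
      (tau d q - t d) * (B d q / kap d q + j)) / (1 + t d * tau d q) = v at hvm
  have key : (1 + t d * tau d q) * (v - tau d q * (B d q / kap d q + j)) =
      (1 + t d * tau d q) * (r d q (j / d) * (1 + eps d q)) +
        kap d q * (cc d q - t d * j * kap d q) := by
    have h1 : (1 + t d * tau d q) * (r d q (j / d) * (1 + eps d q)) =
        r d q (j / d) * (kap d q * s d) := by rw [← hden2]; ring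
    have h2 : (1 + t d * tau d q) * (v - tau d q * (B d q / kap d q + j)) =
      (1 + t d * tau d q) * v -
        (1 + t d * tau d q) * (tau d q * (B d q / kap d q + j)) := by ring
    rw [h2, hvm, h1, hccdef]
    push_cast
    have h3 : (tau d q - t d) * (B d q / kap d q + j) -
      (1 + t d * tau d q) * (tau d q * (B d q / kap d q + j)) =
        - t d * (kap d q ^ 2 * (B d q / kap d q + j)) := by rw [hk3]; ring
    have h4 : kap d q ^ 2 * (B d q / kap d q + j) = kap d q * (B d q + j * kap d q) := by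
      rw [← hKp]; ring
    rw [h4] at h3
    linear_combination h3
  refine LCW_geom hT0 hK0 hk3 ht0 htT hden (by positivity) v hvm ?_ ?_
    (m := r d q (j / d))
  · have h1 := LCW_low hdR hT0 hta2 hK0 hk3 ht0 hc1 (Nat.cast_nonneg j)
      (Nat.cast_nonneg (j / d)) hj1 haadef hr1
    rw [← key] at h1
    have h2 := le_of_mul_le_mul_left h1 hD
    linarith
  · have h1 := LCW_up hdR hT0 hta2 hK0 hk3 hk2 ht0 ht1 htT hc1 hc2 (Nat.cast_nonneg j)
      (Nat.cast_nonneg (j / d)) hj2 hj3 haadef hr2 he2 hp2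
    rw [← key, ← mul_add] at h1
    have h2 := le_of_mul_le_mul_left h1 hD
    linarith

end H282R4.PU
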