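import Pool.Agent.H282R4.PU.Defs
import Pool.Agent.H282R4.PU.Frame
import Pool.Agent.H282R4.PU.LCW
import Pool.Agent.H282R4.PU.SegAny
import Pool.Agent.H282R4.PU.SegShort
import Pool.Agent.H282R4.PU.Disj
import Pool.Agent.H282R4.PU.Sub
import Pool.Agent.H282R4.PU.Cover
import Pool.Agent.H282R4.PU.ExVol
import Pool.Agent.H282R4.PU.Count

namespace H282R4.PU

open MeasureTheory
open H282R3.SQ (USq)

theorem SP_wle {d H : ℕ} (hd : 100 ≤ d) (hH : 6 * d ^ 2 ≤ H) (hH' : H ≤ 30 * d ^ 2) :
    Wle (SP d H) (440 * (d : ℝ) ^ 2) := by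
  classical
  have h1 := Wle_union (idx d H) (SP d H) (Ex d) (Cell d H)
    (fun a => if a.1 = 0 then (10 : ℝ) / d else
      open Classical in if a.2.1 < d ∧ 1 ≤ a.2.1 ∧ Active d H (a.2.1 - 1) a.2.2 then
        (40 : ℝ) / d else 3)
    (40 * (d : ℝ) ^ 2) (by positivity) (cell_sub hd hH hH')
    (fun a ha b hb hab => (cell_disj hd hH hH' a ha b hb hab).mono interior_subset
      interior_subset) (cell_cover hd hH hH') (Ex_volume hd) ?_
  · refine Wle_mono h1 ?_
    have := count_sum hd hH hH'
    linarith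
  · rintro ⟨c, q, R⟩ ha
    unfold idx at ha
    rw [Finset.mem_union, Finset.mem_product, Finset.mem_filter, Finset.mem_product,
      Finset.mem_product, Finset.mem_product, Finset.mem_singleton, Finset.mem_singleton] at ha
    simp only [Finset.mem_range] at ha
    rcases ha with ⟨hc, hq, hR⟩ | ⟨⟨hc, hq, hR⟩, hact⟩
    · subst hc
      show Wle (if (0 : ℕ) = 0 then LC d q R else Seg d H q R) (if (0 : ℕ) = 0 then _ else _)
      rw [if_pos rfl, if_pos rfl]
      exact LC_wle hd hq hR
    · subst hc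
      show Wle (if (1 : ℕ) = 0 then LC d q R else Seg d H q R) (if (1 : ℕ) = 0 then _ else _)
      rw [if_neg one_ne_zero, if_neg one_ne_zero]
      dsimp only
      split_ifs with h
      · exact seg_short hd h.2.1 h.1 hact h.2.2
      · exact seg_any hd (by omega) hact

end H282R4.PU
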