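import Pool.Agent.H282R4.PU.Defs
import Pool.Agent.H282R4.PU.Frame
import Pool.Agent.H282R4.PU.RectW

namespace H282R4.PU

open MeasureTheory
open H282R3.SQ (USq)

theorem triv_wle {x1 x2 m h : ℝ} (hx : x1 ≤ x2) (h0 : 0 ≤ x1) (hm : 0 ≤ m) (hm1 : m ≤ 1)
    (hh : m * x2 ≤ h) :
    Wle {z : ℝ × ℝ | x1 ≤ z.1 ∧ z.1 < x2 ∧ 0 ≤ z.2 ∧ z.2 + m * z.1 < h} (2 * (x2 - x1) + h + 2) := by
  have hx2 : 0 ≤ x2 := h0.trans hx
  have hh0 : 0 ≤ h := (mul_nonneg hm hx2).trans hh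
  set N : ℕ := ⌊x2 - x1⌋₊ with hN
  have hN1 : (N : ℝ) ≤ x2 - x1 := Nat.floor_le (by linarith)
  have hN2 : x2 - x1 < N + 1 := Nat.lt_floor_add_one _
  have key := Wle_union (Finset.range N)
    {z : ℝ × ℝ | x1 ≤ z.1 ∧ z.1 < x2 ∧ 0 ≤ z.2 ∧ z.2 + m * z.1 < h}
    {z : ℝ × ℝ | x1 + N ≤ z.1 ∧ z.1 < x2 ∧ 0 ≤ z.2 ∧ z.2 + m * z.1 < h}
    (fun j : ℕ => {z : ℝ × ℝ | x1 + j ≤ z.1 ∧ z.1 < x1 + j + 1 ∧ 0 ≤ z.2 ∧ z.2 + m * z.1 < h})
    (fun _ => 2) h hh0 ?_ ?_ ?_ ?_ ?_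
  · refine Wle_mono key ?_
    rw [Finset.sum_const, Finset.card_range, nsmul_eq_mul]
    linarith
  · intro j hj z hz
    have hj' : (j : ℝ) + 1 ≤ N := by exact_mod_cast Finset.mem_range.1 hj
    obtain ⟨h1, h2, h3, h4⟩ := hz
    have hj0 : (0 : ℝ) ≤ j := by positivity
    exact ⟨by linarith, by linarith, h3, h4⟩
  · intro i _ j _ hij
    refine Disjoint.mono interior_subset interior_subset ?_
    rw [Set.disjoint_left]
    rintro z ⟨h1, h2, _⟩ ⟨h3, h4, _⟩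
    apply hij
    have k1 : (i : ℝ) < j + 1 := by linarith
    have k2 : (j : ℝ) < i + 1 := by linarith
    have k1' : i < j + 1 := by exact_mod_cast k1
    have k2' : j < i + 1 := by exact_mod_cast k2
    omega
  · rintro z ⟨h1, h2, h3, h4⟩
    by_cases hc : z.1 < x1 + N
    · left
      have h5 : 0 ≤ z.1 - x1 := by linarith
      rw [Set.mem_iUnion₂]
      refine ⟨⌊z.1 - x1⌋₊, ?_, ?_⟩
      · rw [Finset.mem_range, Nat.floor_lt h5]
        linarith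
      · have h6 := Nat.floor_le h5
        have h7 := Nat.lt_floor_add_one (z.1 - x1)
        exact ⟨by linarith, by linarith, h3, h4⟩
    · right
      exact ⟨not_lt.1 hc, h2, h3, h4⟩
  · have hsub : {z : ℝ × ℝ | x1 + N ≤ z.1 ∧ z.1 < x2 ∧ 0 ≤ z.2 ∧ z.2 + m * z.1 < h} ⊆
        Set.Ico (x1 + N) x2 ×ˢ Set.Ico 0 h := by
      rintro z ⟨h1, h2, h3, h4⟩
      have hN0 : (0 : ℝ) ≤ N := by positivity
      have h5 : 0 ≤ m * z.1 := mul_nonneg hm (by linarith)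
      exact ⟨⟨h1, h2⟩, ⟨h3, by linarith⟩⟩
    refine (measure_mono hsub).trans ?_
    rw [Measure.volume_eq_prod, Measure.prod_prod, Real.volume_Ico, Real.volume_Ico, sub_zero]
    calc ENNReal.ofReal (x2 - (x1 + N)) * ENNReal.ofReal h ≤ 1 * ENNReal.ofReal h := by
          gcongr
          rw [ENNReal.ofReal_le_one]
          linarith
      _ = ENNReal.ofReal h := one_mul _
  · intro j hj
    have hj' : (j : ℝ) + 1 ≤ N := by exact_mod_cast Finset.mem_range.1 hj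
    have hv : 0 ≤ h - m * (x1 + j + 1) := by
      have : m * (x1 + j + 1) ≤ m * x2 := mul_le_mul_of_nonneg_left (by linarith) hm
      linarith
    have hfl := Nat.floor_le hv
    have hfl2 := Nat.lt_floor_add_one (h - m * (x1 + j + 1))
    refine rect_wle 1 0 (x1 + j) 0 (h - m * (x1 + j + 1)) 0 (h - m * (x1 + j)) 2
      ⌊h - m * (x1 + j + 1)⌋₊ _ (by norm_num) ?_ ?_ (by linarith) (by linarith) (by norm_num)
    · intro z hz1 hz2 hz3 hz4
      simp only [ax, al, one_mul, zero_mul, neg_zero, add_zero, zero_add] at hz1 hz2 hz3 hz4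
      have h5 : m * z.1 ≤ m * (x1 + j + 1) := mul_le_mul_of_nonneg_left hz2.le hm
      exact ⟨hz1.le, hz2, hz3.le, by linarith⟩
    · rintro z ⟨h1, h2, h3, h4⟩
      simp only [ax, al, one_mul, zero_mul, neg_zero, add_zero, zero_add]
      have h5 : m * (x1 + j) ≤ m * z.1 := mul_le_mul_of_nonneg_left h1 hm
      exact ⟨h1, h2.le, h3, by linarith⟩

end H282R4.PU
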