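import Pool.Agent.H282R4.PU.Defs
import Pool.Agent.H282R4.PU.Frame
import Pool.Agent.H282R4.PU.RectBig
import Pool.Agent.H282R4.PU.ChooseA
import Pool.Agent.H282R4.PU.RectW

namespace H282R4.PU

open MeasureTheory
open H282R3.SQ (USq)

private theorem Square_int (a b c e : ℝ) :
    interior (Set.Icc a b ×ˢ Set.Icc c e : Set (ℝ × ℝ)) = Set.Ioo a b ×ˢ Set.Ioo c e := by
  rw [interior_prod_eq, interior_Icc, interior_Icc]

private theorem Square_grid (N : ℕ) (hN : 1 ≤ N) :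
    Wle (Set.Icc (0 : ℝ) N ×ˢ Set.Icc (0 : ℝ) N) 0 := by
  have h := Wle_union (Finset.range N) (Set.Icc (0 : ℝ) N ×ˢ Set.Icc (0 : ℝ) N) ∅
    (fun j : ℕ => Set.Icc (j : ℝ) (j + 1) ×ˢ Set.Icc (0 : ℝ) N) (fun _ => 0) 0 le_rfl ?_ ?_ ?_ ?_ ?_
  · simpa using h
  · rintro j hj ⟨z1, z2⟩ ⟨h1, h2⟩
    have hj' : (j : ℝ) + 1 ≤ N := by exact_mod_cast Finset.mem_range.1 hj
    have hj0 : (0 : ℝ) ≤ j := Nat.cast_nonneg j
    simp only [Set.mem_Icc] at h1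
    exact ⟨⟨by linarith [h1.1], by linarith [h1.2]⟩, h2⟩
  · intro i _ j _ hij
    rw [Square_int, Square_int, Set.disjoint_left]
    rintro ⟨z1, z2⟩ ⟨h1, -⟩ ⟨h2, -⟩
    simp only [Set.mem_Ioo] at h1 h2
    apply hij
    have e1 : (i : ℝ) < j + 1 := by linarith
    have e2 : (j : ℝ) < i + 1 := by linarith
    have e1' : i < j + 1 := by exact_mod_cast e1
    have e2' : j < i + 1 := by exact_mod_cast e2
    omega
  · rintro ⟨z1, z2⟩ ⟨h1, h2⟩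
    left
    simp only [Set.mem_Icc] at h1
    rw [Set.mem_iUnion₂]
    have hN0 : (0 : ℝ) < N := by exact_mod_cast hN
    rcases lt_or_ge z1 N with h3 | h3
    · refine ⟨⌊z1⌋₊, Finset.mem_range.2 ((Nat.floor_lt h1.1).2 h3), ⟨?_, ?_⟩, h2⟩
      · exact Nat.floor_le h1.1
      · exact (Nat.lt_floor_add_one z1).le
    · refine ⟨N - 1, Finset.mem_range.2 (by omega), ⟨?_, ?_⟩, h2⟩
      · show ((N - 1 : ℕ) : ℝ) ≤ z1
        rw [Nat.cast_sub hN]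
        push_cast
        linarith
      · show z1 ≤ ((N - 1 : ℕ) : ℝ) + 1
        rw [Nat.cast_sub hN]
        push_cast
        linarith
  · simp
  · intro j _
    refine rect_wle 1 0 j 0 N 0 N 0 N _ (by norm_num) ?_ ?_ (by linarith) (by linarith) le_rfl
    · intro z h1 h2 h3 h4
      simp only [ax, al] at h1 h2 h3 h4
      refine ⟨⟨?_, ?_⟩, ⟨?_, ?_⟩⟩ <;> linarith
    · rintro z ⟨⟨h1, h2⟩, ⟨h3, h4⟩⟩
      simp only [ax, al]
      refine ⟨?_, ?_, ?_, ?_⟩ <;> linarith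

private theorem Square_shift {p q : ℝ} {w : ℝ} (h : Wle (Set.Icc 0 p ×ˢ Set.Icc 0 q) w)
    (a b : ℝ) : Wle (Set.Icc a (a + p) ×ˢ Set.Icc b (b + q)) w := by
  have h1 := Wle_translate h (a, b)
  have h2 : {z : ℝ × ℝ | (z.1 - (a, b).1, z.2 - (a, b).2) ∈ Set.Icc 0 p ×ˢ Set.Icc 0 q} =
      Set.Icc a (a + p) ×ˢ Set.Icc b (b + q) := by
    ext ⟨z1, z2⟩
    simp only [Set.mem_setOf_eq, Set.mem_prod, Set.mem_Icc]
    constructor
    · rintro ⟨⟨h1, h2⟩, h3, h4⟩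
      exact ⟨⟨by linarith, by linarith⟩, by linarith, by linarith⟩
    · rintro ⟨⟨h1, h2⟩, h3, h4⟩
      exact ⟨⟨by linarith, by linarith⟩, by linarith, by linarith⟩
  rwa [h2] at h1

private theorem Square_swap {p q : ℝ} {w : ℝ} (h : Wle (Set.Icc 0 p ×ˢ Set.Icc 0 q) w) :
    Wle (Set.Icc 0 q ×ˢ Set.Icc 0 p) w := by
  have h1 := Wle_swap h
  have h2 : {z : ℝ × ℝ | (z.2, z.1) ∈ Set.Icc 0 p ×ˢ Set.Icc 0 q} =
      Set.Icc 0 q ×ˢ Set.Icc 0 p := by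
    ext ⟨z1, z2⟩
    simp only [Set.mem_setOf_eq, Set.mem_prod]
    exact and_comm
  rwa [h2] at h1

private theorem Square_three {x A N w0 w1 w2 : ℝ} (hA : 0 < A) (hN : 0 < N) (hx : A + N = x)
    (h0 : Wle (Set.Icc 0 A ×ˢ Set.Icc 0 x) w0)
    (h1 : Wle (Set.Icc A (A + N) ×ˢ Set.Icc 0 A) w1)
    (h2 : Wle (Set.Icc A (A + N) ×ˢ Set.Icc A (A + N)) w2) :
    Wle (Set.Icc 0 x ×ˢ Set.Icc 0 x) (w0 + w1 + w2) := by
  have h := Wle_union (Finset.univ : Finset (Fin 3)) (Set.Icc 0 x ×ˢ Set.Icc 0 x) ∅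
    ![Set.Icc 0 A ×ˢ Set.Icc 0 x, Set.Icc A (A + N) ×ˢ Set.Icc 0 A,
      Set.Icc A (A + N) ×ˢ Set.Icc A (A + N)] ![w0, w1, w2] 0 le_rfl ?_ ?_ ?_ ?_ ?_
  · rw [Fin.sum_univ_three] at h
    simpa using h
  · intro i _
    fin_cases i
    · rintro ⟨z1, z2⟩ ⟨⟨e1, e2⟩, ⟨e3, e4⟩⟩
      exact ⟨⟨e1, by simp only at e2; linarith⟩, ⟨e3, e4⟩⟩
    · rintro ⟨z1, z2⟩ ⟨⟨e1, e2⟩, ⟨e3, e4⟩⟩
      simp only at e1 e2 e3 e4
      exact ⟨⟨by linarith, by linarith⟩, ⟨by linarith, by linarith⟩⟩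
    · rintro ⟨z1, z2⟩ ⟨⟨e1, e2⟩, ⟨e3, e4⟩⟩
      simp only at e1 e2 e3 e4
      exact ⟨⟨by linarith, by linarith⟩, ⟨by linarith, by linarith⟩⟩
  · intro i _ j _ hij
    have k01 : Disjoint (interior (Set.Icc 0 A ×ˢ Set.Icc 0 x : Set (ℝ × ℝ)))
        (interior (Set.Icc A (A + N) ×ˢ Set.Icc 0 A : Set (ℝ × ℝ))) := by
      rw [Square_int, Square_int, Set.disjoint_left]
      rintro ⟨z1, z2⟩ ⟨⟨e1, e2⟩, ⟨e3, e4⟩⟩ ⟨⟨f1, f2⟩, ⟨f3, f4⟩⟩
      simp only at *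
      linarith
    have k02 : Disjoint (interior (Set.Icc 0 A ×ˢ Set.Icc 0 x : Set (ℝ × ℝ)))
        (interior (Set.Icc A (A + N) ×ˢ Set.Icc A (A + N) : Set (ℝ × ℝ))) := by
      rw [Square_int, Square_int, Set.disjoint_left]
      rintro ⟨z1, z2⟩ ⟨⟨e1, e2⟩, ⟨e3, e4⟩⟩ ⟨⟨f1, f2⟩, ⟨f3, f4⟩⟩
      simp only at *
      linarith
    have k12 : Disjoint (interior (Set.Icc A (A + N) ×ˢ Set.Icc 0 A : Set (ℝ × ℝ)))
        (interior (Set.Icc A (A + N) ×ˢ Set.Icc A (A + N) : Set (ℝ × ℝ))) := by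
      rw [Square_int, Square_int, Set.disjoint_left]
      rintro ⟨z1, z2⟩ ⟨⟨e1, e2⟩, ⟨e3, e4⟩⟩ ⟨⟨f1, f2⟩, ⟨f3, f4⟩⟩
      simp only at *
      linarith
    fin_cases i <;> fin_cases j
    · exact absurd rfl hij
    · exact k01
    · exact k02
    · exact k01.symm
    · exact absurd rfl hij
    · exact k12
    · exact k02.symm
    · exact k12.symm
    · exact absurd rfl hij
  · rintro ⟨z1, z2⟩ ⟨⟨e1, e2⟩, ⟨e3, e4⟩⟩
    simp only at e1 e2 e3 e4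
    left
    rw [Set.mem_iUnion₂]
    rcases le_total z1 A with f1 | f1
    · exact ⟨0, Finset.mem_univ _, ⟨e1, f1⟩, ⟨e3, e4⟩⟩
    · rcases le_total z2 A with f2 | f2
      · exact ⟨1, Finset.mem_univ _, ⟨f1, by simp only; linarith⟩, ⟨e3, f2⟩⟩
      · exact ⟨2, Finset.mem_univ _, ⟨f1, by simp only; linarith⟩, ⟨f2, by simp only; linarith⟩⟩
  · simp
  · intro i _
    fin_cases i
    · exact h0
    · exact h1
    · exact h2

theorem square_wle : ∃ C : ℝ, 0 < C ∧ ∀ x : ℝ, 1 ≤ x →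
    Wle (Set.Icc 0 x ×ˢ Set.Icc 0 x) (C * x ^ ((3 : ℝ) / 5)) := by
  refine ⟨((101 : ℝ) ^ 5) ^ 2, by positivity, fun x hx => ?_⟩
  have hx0 : 0 < x := by linarith
  have hx35 : 1 ≤ x ^ ((3 : ℝ) / 5) := Real.one_le_rpow hx (by norm_num)
  rcases lt_or_ge x ((101 : ℝ) ^ 5) with hK | hK
  · -- small `x`
    refine ⟨by positivity, 0, ⟨fun i => i.elim0, fun i => i.elim0, fun i => i.elim0⟩, ?_⟩
    rw [Measure.volume_eq_prod, Measure.prod_prod, Real.volume_Icc, sub_zero,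
      ← ENNReal.ofReal_mul hx0.le]
    apply ENNReal.ofReal_le_ofReal
    rw [Nat.cast_zero, zero_add]
    have h1 : x * x ≤ ((101 : ℝ) ^ 5) ^ 2 := by
      rw [sq]
      exact mul_le_mul hK.le hK.le hx0.le (by positivity)
    calc x * x ≤ ((101 : ℝ) ^ 5) ^ 2 * 1 := by rw [mul_one]; exact h1
      _ ≤ _ := mul_le_mul_of_nonneg_left hx35 (by positivity)
  · -- large `x`
    set y : ℝ := x ^ ((1 : ℝ) / 5) with hy
    have hy0 : 0 < y := Real.rpow_pos_of_pos hx0 _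
    have hy5 : y ^ 5 = x := by
      rw [hy, ← Real.rpow_natCast, ← Real.rpow_mul hx0.le]
      norm_num
    have hy3 : y ^ 3 = x ^ ((3 : ℝ) / 5) := by
      rw [hy, ← Real.rpow_natCast, ← Real.rpow_mul hx0.le]
      norm_num
    have hy101 : 101 ≤ y := by
      by_contra hcon
      push Not at hcon
      have h1 : y ^ 5 < 101 ^ 5 := pow_lt_pow_left₀ hcon hy0.le (by norm_num)
      rw [hy5] at h1
      linarith
    set d : ℕ := ⌊y⌋₊ with hd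
    have hdy : (d : ℝ) ≤ y := Nat.floor_le hy0.le
    have hdy' : y < d + 1 := Nat.lt_floor_add_one y
    have hd100 : 100 ≤ d := by
      have h1 : (100 : ℝ) < (d : ℝ) + 1 - 0 := by linarith
      have h2 : (100 : ℝ) < ((d + 1 : ℕ) : ℝ) := by push_cast; linarith
      have h3 : 100 < d + 1 := by exact_mod_cast h2
      omega
    have hdR : (100 : ℝ) ≤ d := by exact_mod_cast hd100
    have hd0 : (0 : ℝ) < d := by linarith
    have hd5 : (d : ℝ) ^ 5 ≤ x := by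
      rw [← hy5]
      exact pow_le_pow_left₀ hd0.le hdy 5
    have hd4 : 0 < (d : ℝ) ^ 4 := by positivity
    have hd45 : 100 * (d : ℝ) ^ 4 ≤ (d : ℝ) ^ 5 := by
      have : (d : ℝ) ^ 5 = d * (d : ℝ) ^ 4 := by ring
      rw [this]
      exact mul_le_mul_of_nonneg_right hdR hd4.le
    have hd24 : 10000 * (d : ℝ) ^ 2 ≤ (d : ℝ) ^ 4 := by
      have h1 : (d : ℝ) ^ 4 = (d : ℝ) ^ 2 * (d : ℝ) ^ 2 := by ring
      rw [h1]
      have h2 : (10000 : ℝ) ≤ (d : ℝ) ^ 2 := by nlinarith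
      exact mul_le_mul_of_nonneg_right h2 (by positivity)
    obtain ⟨N, M, hA1, hA2, hM1, hM2⟩ := choose_A hd100 (x := x) (by linarith)
    set A : ℝ := x - N with hA
    have hN60 : 60 * (d : ℝ) ^ 2 ≤ N := by
      have h1 : (N : ℝ) = x - A := by rw [hA]; ring
      rw [h1]
      nlinarith
    have hA0 : 0 < A := by nlinarith
    have hN0 : (0 : ℝ) < N := by nlinarith [pow_pos hd0 2]
    have hN1 : 1 ≤ N := by
      have : 0 < N := by exact_mod_cast hN0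
      omega
    have r0 := rect_big hd100 hA1 hA2 hM1 hM2 (X := x) (by nlinarith)
    have r1 := rect_big hd100 hA1 hA2 hM1 hM2 (X := N) hN60
    have r1' := Square_shift (Square_swap r1) A 0
    rw [zero_add] at r1'
    have r2 := Square_shift (Square_grid N hN1) A A
    have h3 := Square_three hA0 hN0 (by rw [hA]; ring) r0 r1' r2
    refine Wle_mono h3 ?_
    -- numerics
    have hNx : (N : ℝ) ≤ x := by rw [hA] at hA0; linarith
    have hd3 : (d : ℝ) ^ 3 ≤ x ^ ((3 : ℝ) / 5) := by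
      rw [← hy3]
      exact pow_le_pow_left₀ hd0.le hdy 3
    have hxd : x / (d : ℝ) ^ 2 ≤ 4 * x ^ ((3 : ℝ) / 5) := by
      rw [div_le_iff₀ (by positivity), ← hy3]
      have h4 : y ≤ 2 * d := by linarith
      have h5 : y ^ 2 ≤ (2 * d) ^ 2 := pow_le_pow_left₀ hy0.le h4 2
      calc x = y ^ 3 * y ^ 2 := by rw [← hy5]; ring
        _ ≤ y ^ 3 * (2 * d) ^ 2 := mul_le_mul_of_nonneg_left h5 (by positivity)
        _ = 4 * y ^ 3 * (d : ℝ) ^ 2 := by ring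
    have h6 : (x + 20 * (d : ℝ) ^ 2) * (4 / (d : ℝ) ^ 2) = 4 * (x / (d : ℝ) ^ 2) + 80 := by
      field_simp
      ring
    have h7 : ((N : ℝ) + 20 * (d : ℝ) ^ 2) * (4 / (d : ℝ) ^ 2) ≤ 4 * (x / (d : ℝ) ^ 2) + 80 := by
      rw [← h6]
      exact mul_le_mul_of_nonneg_right (by linarith) (by positivity)
    rw [h6, add_zero]
    have h8 : (20192 : ℝ) ≤ ((101 : ℝ) ^ 5) ^ 2 := by norm_num
    calc _ ≤ 20000 * x ^ ((3 : ℝ) / 5) + 8 * (4 * x ^ ((3 : ℝ) / 5)) + 160 * x ^ ((3 : ℝ) / 5) := by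
          linarith
      _ = 20192 * x ^ ((3 : ℝ) / 5) := by ring
      _ ≤ _ := mul_le_mul_of_nonneg_right h8 (by linarith)

end H282R4.PU
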