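import Pool.Agent.H282R4.PU.Defs
import Pool.Agent.H282R4.PK.Pack

/-! Module Upper (helper19): from packings by open squares to `packNum`. -/

namespace H282R4.PU

open MeasureTheory
open H282R3.SQ (USq)

/-- the rigid motion carrying `[0,1]²` to the square `Q` -/
noncomputable def upperIso (Q : USq) : H282R3.SQ.Plane ≃ᵢ H282R3.SQ.Plane :=
  IsometryEquiv.mk'
    (fun y => !₂[Q.p + Q.a * (y 0 - 1 / 2) - Q.b * (y 1 - 1 / 2),
      Q.q + Q.b * (y 0 - 1 / 2) + Q.a * (y 1 - 1 / 2)])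
    (fun z => !₂[1 / 2 + Q.a * (z 0 - Q.p) + Q.b * (z 1 - Q.q),
      1 / 2 - Q.b * (z 0 - Q.p) + Q.a * (z 1 - Q.q)])
    (by
      intro z
      have h := Q.unit
      ext i
      fin_cases i
      · simp
        linear_combination (z 0 - Q.p) * h
      · simp
        linear_combination (z 1 - Q.q) * h)
    (by
      apply Isometry.of_dist_eq
      intro y z
      have h := Q.unit
      rw [EuclideanSpace.dist_eq, EuclideanSpace.dist_eq, Fin.sum_univ_two, Fin.sum_univ_two]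
      congr 1
      simp only [Real.dist_eq, sq_abs]
      simp
      linear_combination ((y 0 - z 0) ^ 2 + (y 1 - z 1) ^ 2) * h)

theorem upper_isUnitSquare (Q : USq) :
    H282R3.SQ.IsUnitSquare {y : H282R3.SQ.Plane | (y 0, y 1) ∈ Q.C} := by
  refine ⟨upperIso Q, ?_⟩
  ext z
  constructor
  · intro hz
    refine ⟨(upperIso Q).symm z, ?_, (upperIso Q).apply_symm_apply z⟩
    have hX : Q.X (z 0, z 1) = Q.a * (z 0 - Q.p) + Q.b * (z 1 - Q.q) := rfl
    have hY : Q.Y (z 0, z 1) = -Q.b * (z 0 - Q.p) + Q.a * (z 1 - Q.q) := rfl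
    obtain ⟨h1, h2⟩ := hz
    rw [abs_le, hX] at h1
    rw [abs_le, hY] at h2
    intro i
    fin_cases i
    · change 0 ≤ 1 / 2 + Q.a * (z 0 - Q.p) + Q.b * (z 1 - Q.q) ∧
        1 / 2 + Q.a * (z 0 - Q.p) + Q.b * (z 1 - Q.q) ≤ 1
      constructor <;> linarith
    · change 0 ≤ 1 / 2 - Q.b * (z 0 - Q.p) + Q.a * (z 1 - Q.q) ∧
        1 / 2 - Q.b * (z 0 - Q.p) + Q.a * (z 1 - Q.q) ≤ 1
      constructor <;> linarith
  · rintro ⟨y, hy, rfl⟩
    have h0 : (upperIso Q y) 0 = Q.p + Q.a * (y 0 - 1 / 2) - Q.b * (y 1 - 1 / 2) := rfl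
    have h1 : (upperIso Q y) 1 = Q.q + Q.b * (y 0 - 1 / 2) + Q.a * (y 1 - 1 / 2) := rfl
    have hu := Q.unit
    have e0 := hy 0
    have e1 := hy 1
    have hX : Q.X ((upperIso Q y) 0, (upperIso Q y) 1) = y 0 - 1 / 2 := by
      change Q.a * ((upperIso Q y) 0 - Q.p) + Q.b * ((upperIso Q y) 1 - Q.q) = _
      rw [h0, h1]
      linear_combination (y 0 - 1 / 2) * hu
    have hY : Q.Y ((upperIso Q y) 0, (upperIso Q y) 1) = y 1 - 1 / 2 := by
      change -Q.b * ((upperIso Q y) 0 - Q.p) + Q.a * ((upperIso Q y) 1 - Q.q) = _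
      rw [h0, h1]
      linear_combination (y 1 - 1 / 2) * hu
    constructor
    · rw [hX, abs_le]
      constructor <;> linarith [e0.1, e0.2]
    · rw [hY, abs_le]
      constructor <;> linarith [e1.1, e1.2]

theorem upper_C_sub_closure (Q : USq) : Q.C ⊆ closure Q.O := by
  intro z hz
  have hcont : Continuous fun t : ℝ => ((Q.p + t * (z.1 - Q.p), Q.q + t * (z.2 - Q.q)) : ℝ × ℝ) := by
    fun_prop
  have h1 : Filter.Tendsto (fun t : ℝ => ((Q.p + t * (z.1 - Q.p), Q.q + t * (z.2 - Q.q)) : ℝ × ℝ))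
      (nhdsWithin 1 (Set.Ioo 0 1)) (nhds z) := by
    have := (hcont.tendsto 1).mono_left (nhdsWithin_le_nhds (s := Set.Ioo (0:ℝ) 1))
    simpa using this
  have : (nhdsWithin (1:ℝ) (Set.Ioo 0 1)).NeBot := by
    apply mem_closure_iff_nhdsWithin_neBot.mp
    rw [closure_Ioo (by norm_num)]
    exact ⟨by norm_num, le_rfl⟩
  refine mem_closure_of_tendsto h1 ?_
  filter_upwards [self_mem_nhdsWithin] with t ht
  obtain ⟨ht0, ht1⟩ := ht
  have hX : Q.X (Q.p + t * (z.1 - Q.p), Q.q + t * (z.2 - Q.q)) = t * Q.X z := by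
    unfold USq.X; ring
  have hY : Q.Y (Q.p + t * (z.1 - Q.p), Q.q + t * (z.2 - Q.q)) = t * Q.Y z := by
    unfold USq.Y; ring
  constructor
  · rw [hX, abs_mul, abs_of_pos ht0]
    have := hz.1
    have h3 : t * |Q.X z| ≤ t * (1 / 2) := mul_le_mul_of_nonneg_left this ht0.le
    linarith
  · rw [hY, abs_mul, abs_of_pos ht0]
    have := hz.2
    have h3 : t * |Q.Y z| ≤ t * (1 / 2) := mul_le_mul_of_nonneg_left this ht0.le
    linarith

/-- translation by `t` times the frame vectors -/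
theorem upper_interior_C (Q : USq) : interior Q.C ⊆ Q.O := by
  intro z hz
  have hz' := interior_subset hz
  have hu := Q.unit
  have key : ∀ σ τ : ℝ, ∃ t : ℝ, 0 < t ∧
      ((z.1 + t * (σ * Q.a - τ * Q.b), z.2 + t * (σ * Q.b + τ * Q.a)) : ℝ × ℝ) ∈ Q.C := by
    intro σ τ
    have hcont : Continuous fun t : ℝ =>
        ((z.1 + t * (σ * Q.a - τ * Q.b), z.2 + t * (σ * Q.b + τ * Q.a)) : ℝ × ℝ) := by
      fun_prop
    have h1 : Filter.Tendsto (fun t : ℝ =>
        ((z.1 + t * (σ * Q.a - τ * Q.b), z.2 + t * (σ * Q.b + τ * Q.a)) : ℝ × ℝ))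
        (nhdsWithin 0 (Set.Ioi 0)) (nhds z) := by
      have := (hcont.tendsto 0).mono_left (nhdsWithin_le_nhds (s := Set.Ioi (0:ℝ)))
      simpa using this
    have h2 := h1.eventually (mem_interior_iff_mem_nhds.mp hz)
    have h3 : ∀ᶠ t : ℝ in nhdsWithin 0 (Set.Ioi 0), 0 < t := self_mem_nhdsWithin
    obtain ⟨t, ht1, ht2⟩ := (h2.and h3).exists
    exact ⟨t, ht2, ht1⟩
  have hXt : ∀ t σ τ : ℝ, Q.X (z.1 + t * (σ * Q.a - τ * Q.b), z.2 + t * (σ * Q.b + τ * Q.a)) =
      Q.X z + t * σ := by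
    intro t σ τ
    unfold USq.X
    linear_combination (t * σ) * hu
  have hYt : ∀ t σ τ : ℝ, Q.Y (z.1 + t * (σ * Q.a - τ * Q.b), z.2 + t * (σ * Q.b + τ * Q.a)) =
      Q.Y z + t * τ := by
    intro t σ τ
    unfold USq.Y
    linear_combination (t * τ) * hu
  have a1 := abs_le.mp hz'.1
  have a2 := abs_le.mp hz'.2
  constructor
  · rw [abs_lt]
    constructor
    · obtain ⟨t, ht, hC⟩ := key (-1) 0
      have := abs_le.mp hC.1
      rw [hXt] at this
      linarith [this.1]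
    · obtain ⟨t, ht, hC⟩ := key 1 0
      have := abs_le.mp hC.1
      rw [hXt] at this
      linarith [this.2]
  · rw [abs_lt]
    constructor
    · obtain ⟨t, ht, hC⟩ := key 0 (-1)
      have := abs_le.mp hC.2
      rw [hYt] at this
      linarith [this.1]
    · obtain ⟨t, ht, hC⟩ := key 0 1
      have := abs_le.mp hC.2
      rw [hYt] at this
      linarith [this.2]

theorem upper_canPack {x : ℝ} {n : ℕ} (h : Fits (Set.Icc 0 x ×ˢ Set.Icc 0 x) n) :
    H282R4.PK.CanPack x n := by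
  obtain ⟨Q, hin, hd⟩ := h
  refine ⟨fun i => {y | (y 0, y 1) ∈ (Q i).C}, fun i => upper_isUnitSquare (Q i), ?_, ?_⟩
  · intro i y hy
    have h1 : (Q i).C ⊆ Set.Icc 0 x ×ˢ Set.Icc 0 x :=
      (upper_C_sub_closure (Q i)).trans
        (closure_minimal (hin i) (isClosed_Icc.prod isClosed_Icc))
    have h2 := h1 hy
    intro j
    fin_cases j
    · exact ⟨h2.1.1, h2.1.2⟩
    · exact ⟨h2.2.1, h2.2.2⟩
  · intro i j hij
    rw [Set.disjoint_left]
    intro y hyi hyj
    have key : ∀ k, y ∈ interior {y : H282R3.SQ.Plane | (y 0, y 1) ∈ (Q k).C} →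
        ((y 0, y 1) : ℝ × ℝ) ∈ (Q k).O := by
      intro k hk
      apply upper_interior_C
      rw [mem_interior]
      refine ⟨(fun z : ℝ × ℝ => (!₂[z.1, z.2] : H282R3.SQ.Plane)) ⁻¹'
        interior {y : H282R3.SQ.Plane | (y 0, y 1) ∈ (Q k).C}, ?_, ?_, ?_⟩
      · intro z hz
        have := interior_subset hz
        simpa using this
      · apply isOpen_interior.preimage
        fun_prop
      · have e : (!₂[y 0, y 1] : H282R3.SQ.Plane) = y := by
          ext i
          fin_cases i <;> simp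
        change (!₂[y 0, y 1] : H282R3.SQ.Plane) ∈
          interior {y : H282R3.SQ.Plane | (y 0, y 1) ∈ (Q k).C}
        rw [e]
        exact hk
    exact Set.disjoint_left.1 (hd i j hij) (key i hyi) (key j hyj)

theorem waste_le_of_Wle {x w : ℝ} (hx : 0 ≤ x) (h : Wle (Set.Icc 0 x ×ˢ Set.Icc 0 x) w) :
    H282R4.PK.Waste x ≤ w := by
  obtain ⟨hw, n, hfit, hvol⟩ := h
  have h1 := (H282R4.PK.packNum_isGreatest hx).2 (upper_canPack hfit)
  have h2 : (n : ℝ) ≤ H282R4.PK.packNum x := by exact_mod_cast h1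
  rw [Measure.volume_eq_prod, Measure.prod_prod, Real.volume_Icc, sub_zero,
    ← ENNReal.ofReal_mul hx] at hvol
  have h3 := (ENNReal.ofReal_le_ofReal_iff (by positivity)).1 hvol
  unfold H282R4.PK.Waste
  nlinarith

end H282R4.PU
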