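import Pool.Agent.H282R4.PK.Pack
import Pool.Agent.H282R4.PU.Square
import Pool.Agent.H282R4.PU.Upper

namespace H282R4.PU

open H282R4.PK

/-- `W(x) ≤ C x^(3/5)` -/
theorem waste_upper : ∃ C : ℝ, 0 < C ∧ ∀ x : ℝ, 1 ≤ x → Waste x ≤ C * x ^ ((3 : ℝ) / 5) := by
  obtain ⟨C, hC, h⟩ := square_wle
  exact ⟨C, hC, fun x hx => waste_le_of_Wle (by linarith) (h x hx)⟩

end H282R4.PU
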